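import Pool.Agent.Work.MP_8f25a0_ex.Interface

/-!
# Block COR: all large `n`
-/

set_option autoImplicit false

namespace Pool.Agent.Work.MP_8f25a0_lc.Ex

open Finset Pool.Agent.Work.MP_8f25a0_lc.Decoy

theorem COR_num {k Q : ℕ} (hQk : Q ≤ k) :
    32 * ((k : ℝ) + 6) * (10 ^ 13 * (k * Q) * ((k : ℝ) + 3) ^ 8 * 2 ^ (2 * (k / Q) + 2)) ≤
      10 ^ 15 * ((k : ℝ) + 6) ^ 11 * 2 ^ (2 * (k / Q) + 2) := by
  have hk0 : (0 : ℝ) ≤ k := Nat.cast_nonneg _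
  have hQ0 : (0 : ℝ) ≤ Q := Nat.cast_nonneg _
  have hQk' : (Q : ℝ) ≤ k := by exact_mod_cast hQk
  have h2 : ((k : ℝ) + 6) * ((k * Q) * ((k : ℝ) + 3) ^ 8) ≤ ((k : ℝ) + 6) ^ 11 := by
    calc ((k : ℝ) + 6) * ((k * Q) * ((k : ℝ) + 3) ^ 8) ≤
          ((k : ℝ) + 6) * ((((k : ℝ) + 6) * ((k : ℝ) + 6)) * ((k : ℝ) + 6) ^ 8) := by
          gcongr <;> linarith
      _ = _ := by ring
  have h3 : (0 : ℝ) < 2 ^ (2 * (k / Q) + 2) := by positivity
  calc 32 * ((k : ℝ) + 6) * (10 ^ 13 * (k * Q) * ((k : ℝ) + 3) ^ 8 * 2 ^ (2 * (k / Q) + 2))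
      = 32 * 10 ^ 13 * (((k : ℝ) + 6) * ((k * Q) * ((k : ℝ) + 3) ^ 8)) *
          2 ^ (2 * (k / Q) + 2) := by ring
    _ ≤ 10 ^ 15 * ((k : ℝ) + 6) ^ 11 * 2 ^ (2 * (k / Q) + 2) := by
        gcongr
        norm_num

theorem p_COR (hSTP : Stmt_STP) : Stmt_COR := by
  intro k Q n ε hQ hQk hst hn hlog hε0 hε1
  have hk : 1 ≤ k := by omega
  have hk1 : (1 : ℝ) ≤ k := by exact_mod_cast hk
  have hk0 : (0 : ℝ) < k := by linarith
  have hQ0 : (0 : ℝ) < Q := by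
    have : 0 < Q := by omega
    exact_mod_cast this
  obtain ⟨N, hN⟩ : ∃ N : ℕ, N = k * Q := ⟨_, rfl⟩
  have hkN : 256 * k ≤ N := by rw [hN]; nlinarith
  have hnum := COR_num hQk
  set Z : ℝ := 10 ^ 13 * (k * Q) * ((k : ℝ) + 3) ^ 8 * 2 ^ (2 * (k / Q) + 2) with hZ
  set R : ℝ := 10 ^ 15 * ((k : ℝ) + 6) ^ 11 * 2 ^ (2 * (k / Q) + 2) with hR
  have hZ0 : 0 < Z := by positivity
  have hK1 : (1 : ℝ) ≤ 32 * ((k : ℝ) + 6) := by linarith
  have h2k : (0 : ℝ) < 2 ^ k := by positivity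
  have hstepZ : ∀ e : ℝ, 0 < e → 2 ^ k / 2 ^ (2 * (k / Q) + 2) /
      (10 ^ 13 * (k * Q) * ((k : ℝ) + 3) ^ 8 * e ^ 2) = 2 ^ k / (Z * e ^ 2) := by
    intro e he
    rw [hZ, div_div]
    congr 1
    ring
  rcases le_or_gt (32 * ((k : ℝ) + 6)) (2 ^ n / 2 ^ k * ε ^ 2) with hA | hB
  · -- many variables
    classical
    have hex : ∃ i : ℕ, 32 * ((k : ℝ) + 6) ≤ 2 ^ i / 2 ^ k * ε ^ 2 := ⟨n, hA⟩
    set n₁ := Nat.find hex with hn₁
    have hn₁P : 32 * ((k : ℝ) + 6) ≤ 2 ^ n₁ / 2 ^ k * ε ^ 2 := Nat.find_spec hex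
    have hn₁n : n₁ ≤ n := Nat.find_min' hex hA
    have hsmall : ∀ i : ℕ, i ≤ N → 2 ^ i / 2 ^ k * ε ^ 2 < 32 * ((k : ℝ) + 6) := by
      intro i hi
      have e1 : ε ^ 2 ≤ (1 / 2 ^ N) ^ 2 := by
        rw [hN]
        exact pow_le_pow_left₀ hε0.le hε1 2
      have e2 : (2 : ℝ) ^ i ≤ 2 ^ N := pow_le_pow_right₀ (by norm_num) hi
      calc 2 ^ i / 2 ^ k * ε ^ 2 ≤ 2 ^ i * ε ^ 2 := by
            apply mul_le_mul_of_nonneg_right _ (by positivity)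
            exact div_le_self (by positivity) (one_le_pow₀ (by norm_num))
        _ ≤ 2 ^ N * (1 / 2 ^ N) ^ 2 := by gcongr
        _ = 1 / 2 ^ N := by field_simp
        _ ≤ 1 := by
            rw [div_le_one (by positivity)]
            exact one_le_pow₀ (by norm_num)
        _ < 32 * ((k : ℝ) + 6) := by linarith
    have hNn₁ : N < n₁ := by
      by_contra hcon
      push Not at hcon
      exact absurd hn₁P (not_le.mpr (hsmall n₁ hcon))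
    have hhi : 2 ^ n₁ / 2 ^ k * ε ^ 2 ≤ 64 * ((k : ℝ) + 6) := by
      have h1 : ¬ 32 * ((k : ℝ) + 6) ≤ 2 ^ (n₁ - 1) / 2 ^ k * ε ^ 2 :=
        Nat.find_min hex (by omega)
      push Not at h1
      have h2 : (2 : ℝ) ^ n₁ = 2 ^ (n₁ - 1) * 2 := by
        rw [← pow_succ]
        congr 1
        omega
      rw [h2]
      have h3 : (2 : ℝ) ^ (n₁ - 1) * 2 / 2 ^ k * ε ^ 2 = 2 * (2 ^ (n₁ - 1) / 2 ^ k * ε ^ 2) := by
        ring
      rw [h3]
      linarith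
    have hlog₁ : Real.log n₁ ≤ 2 ^ k := by
      refine le_trans (Real.log_le_log ?_ ?_) hlog
      · have : 0 < n₁ := by omega
        exact_mod_cast this
      · exact_mod_cast hn₁n
    obtain ⟨A, hA'⟩ := exists_approximates n₁ k hε0.le
    have h1 := hSTP k Q n₁ (queryComplexity n₁ k ε) ε hQ hQk hst (by rw [← hN]; omega) hlog₁ hε0
      hε1 hn₁P hhi A hA'
    rw [hstepZ ε hε0] at h1
    have h2 : (queryComplexity n₁ k ε : ℝ) ≤ queryComplexity n k ε := by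
      exact_mod_cast qc_mono hε0.le hn₁n
    calc 2 ^ k * min (2 ^ n / 2 ^ k) (1 / ε ^ 2) ≤ 2 ^ k * (1 / ε ^ 2) :=
          mul_le_mul_of_nonneg_left (min_le_right _ _) h2k.le
      _ = Z * (2 ^ k / (Z * ε ^ 2)) := by field_simp
      _ ≤ Z * queryComplexity n k ε := mul_le_mul_of_nonneg_left (h1.trans h2) hZ0.le
      _ ≤ R * queryComplexity n k ε := by
          apply mul_le_mul_of_nonneg_right _ (Nat.cast_nonneg _)
          refine le_trans ?_ hnum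
          exact le_mul_of_one_le_left hZ0.le hK1
  · -- few variables
    rw [← hN] at hn
    set ε₂ : ℝ := √(32 * ((k : ℝ) + 6) * 2 ^ k / 2 ^ n) with hε₂
    have hε₂sq : ε₂ ^ 2 = 32 * ((k : ℝ) + 6) * 2 ^ k / 2 ^ n := Real.sq_sqrt (by positivity)
    have hε₂0 : 0 < ε₂ := Real.sqrt_pos.mpr (by positivity)
    have heq : 2 ^ n / 2 ^ k * ε₂ ^ 2 = 32 * ((k : ℝ) + 6) := by
      rw [hε₂sq]; field_simp
    have hεε : ε ≤ ε₂ := by
      have h1 : 2 ^ n / 2 ^ k * ε ^ 2 < 2 ^ n / 2 ^ k * ε₂ ^ 2 := by rw [heq]; exact hB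
      have h2 : ε ^ 2 < ε₂ ^ 2 := lt_of_mul_lt_mul_left h1 (by positivity)
      exact le_of_sq_le_sq h2.le hε₂0.le
    have hε₂1 : ε₂ ≤ 1 / 2 ^ (k * Q) := by
      rw [← hN]
      apply le_of_sq_le_sq _ (by positivity)
      rw [hε₂sq, div_pow, one_pow, div_le_div_iff₀ (by positivity) (by positivity), one_mul]
      have h1 : 32 * ((k : ℝ) + 6) ≤ 2 ^ (k + 8) := by
        have h2 : k + 6 ≤ 2 ^ (k + 3) := by
          have := Nat.lt_two_pow_self (n := k)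
          rw [pow_add]
          omega
        have h3 : (k : ℝ) + 6 ≤ 2 ^ (k + 3) := by exact_mod_cast h2
        calc 32 * ((k : ℝ) + 6) ≤ 32 * 2 ^ (k + 3) := by linarith
          _ = 2 ^ (k + 8) := by rw [pow_add, pow_add]; ring
      calc 32 * ((k : ℝ) + 6) * 2 ^ k * (2 ^ N) ^ 2 ≤ 2 ^ (k + 8) * 2 ^ k * (2 ^ N) ^ 2 := by
            gcongr
        _ = 2 ^ (k + 8 + k + N * 2) := by rw [← pow_mul, ← pow_add, ← pow_add]
        _ ≤ 2 ^ n := pow_le_pow_right₀ (by norm_num) (by omega)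
    obtain ⟨A, hA'⟩ := exists_approximates n k hε₂0.le
    have h1 := hSTP k Q n (queryComplexity n k ε₂) ε₂ hQ hQk hst (by rw [← hN]; omega) hlog hε₂0
      hε₂1 heq.ge (by rw [heq]; linarith) A hA'
    rw [hstepZ ε₂ hε₂0] at h1
    have h2 : (queryComplexity n k ε₂ : ℝ) ≤ queryComplexity n k ε := by
      exact_mod_cast qc_eps hε0.le hεε
    have h3 : (2 : ℝ) ^ n / 2 ^ k = 32 * ((k : ℝ) + 6) / ε₂ ^ 2 := by
      rw [eq_div_iff (by positivity)]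
      exact heq
    calc 2 ^ k * min (2 ^ n / 2 ^ k) (1 / ε ^ 2) ≤ 2 ^ k * (2 ^ n / 2 ^ k) :=
          mul_le_mul_of_nonneg_left (min_le_left _ _) h2k.le
      _ = 2 ^ k * (32 * ((k : ℝ) + 6) / ε₂ ^ 2) := by rw [h3]
      _ = (32 * ((k : ℝ) + 6) * Z) * (2 ^ k / (Z * ε₂ ^ 2)) := by field_simp
      _ ≤ (32 * ((k : ℝ) + 6) * Z) * queryComplexity n k ε :=
          mul_le_mul_of_nonneg_left (h1.trans h2) (by positivity)
      _ ≤ R * queryComplexity n k ε :=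
          mul_le_mul_of_nonneg_right hnum (Nat.cast_nonneg _)

end Pool.Agent.Work.MP_8f25a0_lc.Ex
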