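import Pool.Agent.Work.MP_8f25a0_ex.Interface

/-!
# Block ENG: the engine with the total overlap (adapted from `Decoy/Indist`, `Good`, `Engine`)
-/

set_option autoImplicit false

namespace Pool.Agent.Work.MP_8f25a0_lc.Ex

open Finset Pool.Agent.Work.MP_8f25a0_lc.Decoy

/-- **Indistinguishability.** -/
theorem ENG_indist {n k M t₀ q D : ℕ} {V : Type} [Fintype V] {β δ : ℝ} (P : Pair V D β)
    (e : Fin M → Fin k → Fin n) (hδ0 : 0 ≤ δ)
    (hδ : M * δ ≤ 1 / 2) (ht : 1 ≤ t₀) (htδ : (t₀ : ℝ) * (4 / 3 * δ ^ 2) ≤ 1 / 16)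
    (hq : ∀ S : Finset (Cube n), S.card ≤ q →
      (∑ a, ind (∃ z : Cube k, t₀ < (S.filter fun y : Cube n => y ∘ e a = z).card)) * t₀ ≤
        2 * (q : ℝ)) {O : Set ℝ} (hO : O.Nonempty)
    (T : Tree n) (hT : T.depth ≤ q) :
    (∑ a, EL (planted P a) (fun Ξ => Ex (prb e P.X δ Ξ) (oi T O))) ≤
      M * EL (null P) (fun Ξ : Fin M × Cube k → V => Ex (prb e P.X δ Ξ) (oi T O)) + 2 * q / t₀ +
        M * (2 ^ k * (8 / 3 * (1 / 4) ^ D)) := by
  classical
  obtain ⟨r, hr⟩ := hO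
  have hp0 : ∀ (Ξ : Fin M × Cube k → V) x, 0 ≤ prb e P.X δ Ξ x := fun Ξ x => by
    have := (prb_mem e P.hX hδ0 hδ Ξ x).1; linarith
  have hp1 : ∀ (Ξ : Fin M × Cube k → V) x, prb e P.X δ Ξ x ≤ 1 := fun Ξ x => by
    have := (prb_mem e P.hX hδ0 hδ Ξ x).2; linarith
  have ht0 : (0 : ℝ) < t₀ := by exact_mod_cast ht
  -- one decoy
  have key : ∀ a : Fin M, EL (planted P a) (fun Ξ => Ex (prb e P.X δ Ξ) (oi T O)) ≤
      EL (null P) (fun Ξ : Fin M × Cube k → V => Ex (prb e P.X δ Ξ) (oi T O)) +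
      EL (null P) (fun Ξ : Fin M × Cube k → V => Ex (prb e P.X δ Ξ) (fun f =>
        ind (∃ z : Cube k, t₀ < ((asked f T).filter fun y : Cube n => y ∘ e a = z).card))) +
      2 ^ k * (8 / 3 * (1 / 4) ^ D) := by
    intro a
    set B := trunc (e a) t₀ r T ∅ with hB
    have h1 : EL (planted P a) (fun Ξ => Ex (prb e P.X δ Ξ) (oi T O)) ≤
        EL (planted P a) (fun Ξ => Ex (prb e P.X δ Ξ) (oi B O)) :=
      EL_mono (planted_nonneg P a) fun Ξ => Ex_mono' (hp0 Ξ) (hp1 Ξ) fun f =>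
        oi_le_trunc (e a) t₀ hr T f
    have h2 : EL (null P) (fun Ξ : Fin M × Cube k → V => Ex (prb e P.X δ Ξ) (oi B O)) ≤
        EL (null P) (fun Ξ : Fin M × Cube k → V => Ex (prb e P.X δ Ξ) (oi T O)) +
        EL (null P) (fun Ξ : Fin M × Cube k → V => Ex (prb e P.X δ Ξ) (fun f =>
          ind (∃ z : Cube k, t₀ < ((asked f T).filter fun y : Cube n => y ∘ e a = z).card))) := by
      rw [← EL_add]
      apply EL_mono (null_nonneg P)
      intro Ξ
      rw [← Ex_add]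
      exact Ex_mono' (hp0 Ξ) (hp1 Ξ) fun f => trunc_le_oi (e a) t₀ r O T f
    set A : Finset (Fin M × Cube k) := univ.filter fun i => i.1 = a with hA
    have hAc : (A.card : ℝ) = 2 ^ k := by
      have h3 : A = (univ : Finset (Cube k)).image fun z => (a, z) := by
        ext i
        simp only [hA, mem_filter, mem_univ, true_and, mem_image]
        constructor
        · intro h
          exact ⟨i.2, by rw [← h]⟩
        · rintro ⟨z', h4⟩
          rw [← h4]
      rw [h3, card_image_of_injective _ (fun z z' h => (Prod.ext_iff.mp h).2)]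
      simp
    have h4 := hybrid (I := Fin M × Cube k) P.n0 P.n1 P.s0 P.s1
      (fun Ξ => Ex (prb e P.X δ Ξ) (oi B O)) (κ := 8 / 3 * (1 / 4) ^ D) A (by
        rintro ⟨b, z⟩ hb Ξ
        have hb' : b = a := (mem_filter.mp hb).2
        subst hb'
        exact cell_step P e hδ0 hδ htδ O T r Ξ b z)
    have h5 : (fun i => if i ∈ A then P.w1 else P.w0) = planted P a := by
      funext i
      unfold planted
      simp only [hA, mem_filter, mem_univ, true_and]
    rw [h5, hAc] at h4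
    have h6 : (fun _ : Fin M × Cube k => P.w0) = null P := rfl
    rw [h6] at h4
    have h7 := (abs_le.mp h4).2
    linarith
  have hsum : ∑ a : Fin M, EL (null P) (fun Ξ : Fin M × Cube k → V => Ex (prb e P.X δ Ξ) (fun f =>
      ind (∃ z : Cube k, t₀ < ((asked f T).filter fun y : Cube n => y ∘ e a = z).card))) ≤
      2 * q / t₀ := by
    rw [← EL_sum]
    calc EL (null P) (fun Ξ : Fin M × Cube k → V => ∑ a : Fin M, Ex (prb e P.X δ Ξ) (fun f =>
          ind (∃ z : Cube k, t₀ < ((asked f T).filter fun y : Cube n => y ∘ e a = z).card)))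
        ≤ EL (null P) (fun _ : Fin M × Cube k → V => 2 * (q : ℝ) / t₀) := by
          apply EL_mono (null_nonneg P)
          intro Ξ
          rw [← Ex_sum, ← Ex_const (prb e P.X δ Ξ) (2 * (q : ℝ) / t₀)]
          apply Ex_mono' (hp0 Ξ) (hp1 Ξ)
          intro f
          rw [le_div_iff₀ ht0]
          exact hq (asked f T) ((card_asked f T).trans hT)
      _ = 2 * q / t₀ := EL_const (null_sum P) _
  calc (∑ a, EL (planted P a) (fun Ξ => Ex (prb e P.X δ Ξ) (oi T O)))
      ≤ ∑ a : Fin M, (EL (null P) (fun Ξ : Fin M × Cube k → V => Ex (prb e P.X δ Ξ) (oi T O)) +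
      EL (null P) (fun Ξ : Fin M × Cube k → V => Ex (prb e P.X δ Ξ) (fun f =>
        ind (∃ z : Cube k, t₀ < ((asked f T).filter fun y : Cube n => y ∘ e a = z).card))) +
      2 ^ k * (8 / 3 * (1 / 4) ^ D)) := sum_le_sum fun a _ => key a
    _ ≤ _ := by
      rw [sum_add_distrib, sum_add_distrib, sum_const, sum_const, card_univ, Fintype.card_fin,
        nsmul_eq_mul, nsmul_eq_mul]
      linarith


section

variable {N k M D : ℕ} {V : Type} [Fintype V] {β v : ℝ}

theorem ENG_rr_bad {u : Fin M × Cube k → V → ℝ} (h0 : ∀ i v, 0 ≤ u i v) (h1 : ∀ i, ∑ v, u i v = 1)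
    {X : V → ℝ} (hX : ∀ v, |X v| ≤ 1) (hm : ∀ i, ∑ v, u i v * X v = 0) (hβ : 0 < β)
    {e : Fin M → Fin k → Fin N} (he : ∀ a, Function.Injective (e a))
    (hov : Ov e v) (hM : 1 ≤ M) (hv0 : 0 < v)
    (hv : 512 * v * (N * Real.log 4 + Real.log (200 * M)) ≤ β ^ 2) :
    EL u (fun Ξ => ind (∃ (J : Finset (Fin N)) (a : Fin M) (z : Cube N), J.card ≤ k ∧
      (∀ b, (J ∩ rg (e b)).card ≤ (J ∩ rg (e a)).card) ∧ β / 16 < |RR e X Ξ J a z|)) ≤
      1 / 100 := by
  have hM0 : (0 : ℝ) < M := by exact_mod_cast hM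
  exact RR_union he h0 h1 hX hm hβ.le (v := v) hv0 hM (fun J a hJ ha => hov J a hJ ha) hv

theorem ENG_good_null (P : Pair V D β) (hβ : 0 < β) {e : Fin M → Fin k → Fin N}
    (he : ∀ a, Function.Injective (e a)) (hov : Ov e v)
    (hM : 1 ≤ M) (hv0 : 0 < v)
    (hv : 512 * v * (N * Real.log 4 + Real.log (200 * M)) ≤ β ^ 2)
    (hc : M * Real.exp (-(2 ^ k * β ^ 2 / 512)) ≤ 1 / 100) :
    EL (null P) (fun Ξ : Fin M × Cube k → V => ind (¬ ∀ G : Cube N → Bool, IsJunta k G →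
      avg (fun y => FF e P.X Ξ y * sg (G y)) ≤ P.E0 + β / 8)) ≤ 1 / 50 := by
  have h1 := ENG_rr_bad (null_nonneg P) (null_sum P) P.hX (null_mean P) hβ he hov hM hv0 hv
  have h2 : EL (null P) (fun Ξ : Fin M × Cube k → V =>
      ind (∃ a : Fin M, P.E0 + β / 16 < avg fun w : Cube k => |P.X (Ξ (a, w))|)) ≤ 1 / 100 := by
    calc _ ≤ EL (null P) (fun Ξ : Fin M × Cube k → V => ∑ a : Fin M,
          ind (P.E0 + β / 16 < avg fun w : Cube k => |P.X (Ξ (a, w))|)) :=
          EL_mono (null_nonneg P) fun Ξ => ind_exists _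
      _ = ∑ a : Fin M, EL (null P) (fun Ξ : Fin M × Cube k → V =>
          ind (P.E0 + β / 16 < avg fun w : Cube k => |P.X (Ξ (a, w))|)) := by rw [EL_sum]
      _ ≤ ∑ _a : Fin M, Real.exp (-(2 ^ k * β ^ 2 / 512)) := by
          apply sum_le_sum
          intro a _
          exact (abs_tail (null_nonneg P) (null_sum P) P.hX hβ.le a (E := P.E0) (fun w => rfl)).1
      _ = M * Real.exp (-(2 ^ k * β ^ 2 / 512)) := by simp
      _ ≤ _ := hc
  calc _ ≤ EL (null P) (fun Ξ : Fin M × Cube k → V =>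
        ind (∃ a : Fin M, P.E0 + β / 16 < avg fun w : Cube k => |P.X (Ξ (a, w))|) +
        ind (∃ (J : Finset (Fin N)) (a : Fin M) (z : Cube N), J.card ≤ k ∧
        (∀ b, (J ∩ rg (e b)).card ≤ (J ∩ rg (e a)).card) ∧ β / 16 < |RR e P.X Ξ J a z|)) := by
        apply EL_mono (null_nonneg P)
        intro Ξ
        refine le_trans (ind_mono ?_) (ind_or _ _)
        intro h
        by_contra hcon
        push Not at hcon
        apply h
        intro G hG
        have h3 := corr_le he (X := P.X) (Ξ := Ξ) hM (U := P.E0 + β / 16) (B := β / 16)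
          (fun a => hcon.1 a) (fun J a z hJ ha => hcon.2 J a z hJ ha) hG
        linarith
    _ ≤ 1 / 50 := by rw [EL_add]; linarith

theorem ENG_good_planted (P : Pair V D β) (hβ : 0 < β) {e : Fin M → Fin k → Fin N}
    (he : ∀ a, Function.Injective (e a)) (hov : Ov e v)
    (hM : 1 ≤ M) (hv0 : 0 < v)
    (hv : 512 * v * (N * Real.log 4 + Real.log (200 * M)) ≤ β ^ 2)
    (hc : M * Real.exp (-(2 ^ k * β ^ 2 / 512)) ≤ 1 / 100) (a : Fin M) :
    EL (planted P a) (fun Ξ : Fin M × Cube k → V => ind (¬ ∃ G : Cube N → Bool, IsJunta k G ∧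
      P.E1 - β / 8 ≤ avg (fun y => FF e P.X Ξ y * sg (G y)))) ≤ 1 / 50 := by
  have h1 := ENG_rr_bad (planted_nonneg P a) (planted_sum P a) P.hX (planted_mean P a) hβ he hov hM hv0 hv
  have hM1 : (1 : ℝ) ≤ M := by exact_mod_cast hM
  have h2 : EL (planted P a) (fun Ξ : Fin M × Cube k → V =>
      ind ((avg fun w : Cube k => |P.X (Ξ (a, w))|) < P.E1 - β / 16)) ≤ 1 / 100 := by
    refine (abs_tail (planted_nonneg P a) (planted_sum P a) P.hX hβ.le a (E := P.E1)
      (fun w => ?_)).2.trans ?_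
    · unfold planted
      rw [if_pos rfl]
      rfl
    · refine le_trans ?_ hc
      exact le_mul_of_one_le_left (Real.exp_pos _).le hM1
  calc _ ≤ EL (planted P a) (fun Ξ : Fin M × Cube k → V =>
        ind ((avg fun w : Cube k => |P.X (Ξ (a, w))|) < P.E1 - β / 16) +
        ind (∃ (J : Finset (Fin N)) (a : Fin M) (z : Cube N), J.card ≤ k ∧
        (∀ b, (J ∩ rg (e b)).card ≤ (J ∩ rg (e a)).card) ∧ β / 16 < |RR e P.X Ξ J a z|)) := by
        apply EL_mono (planted_nonneg P a)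
        intro Ξ
        refine le_trans (ind_mono ?_) (ind_or _ _)
        intro h
        by_contra hcon
        push Not at hcon
        apply h
        obtain ⟨G, hG, h3⟩ := le_corr he (X := P.X) (Ξ := Ξ) (L := P.E1 - β / 16) (B := β / 16) a
          hcon.1 (fun J a z hJ ha => hcon.2 J a z hJ ha)
        exact ⟨G, hG, by linarith⟩
    _ ≤ 1 / 50 := by rw [EL_add]; linarith

end

/-- **The engine.** -/
theorem p_ENG (hCMB : Stmt_CMB) : Stmt_ENG := by
  intro N d k M t₀ q D V _ β ε v P e hβ he hov hv0 hM hn hv hc hε hδ hD hN ht htδ hcomb A hA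
  classical
  by_contra hcon
  push Not at hcon
  have hM1 : 1 ≤ M := by omega
  have hM0 : (0 : ℝ) < M := by exact_mod_cast hM1
  have ht0 : (0 : ℝ) < t₀ := by exact_mod_cast ht
  set δ : ℝ := 8 * ε / β with hδdef
  have hδ0 : 0 ≤ δ := by positivity
  have hδβ : δ * β = 8 * ε := by rw [hδdef]; field_simp
  have hg0 := ENG_good_null P hβ he hov hM1 hv0 hv hc
  have hg1 := ENG_good_planted P hβ he hov hM1 hv0 hv hc
  have hN1 : Real.exp (-(2 ^ (N + d) * (ε / 4) ^ 2 / 2)) ≤ 1 / 100 := by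
    refine le_trans ?_ hN
    apply le_mul_of_one_le_left (Real.exp_pos _).le
    have h1 : (1 : ℝ) ≤ ((N + d : ℕ) : ℝ) ^ k := one_le_pow₀ (by exact_mod_cast hn)
    have h2 : (1 : ℝ) ≤ 2 ^ (2 ^ k) := one_le_pow₀ (by norm_num)
    nlinarith
  have hd0 := dist_null P (e := e) hn hδ0 hδ (by positivity : (0 : ℝ) ≤ ε / 4) hg0 hN
  have hd1 := fun a => dist_planted (d := d) P (e := e) hδ0 hδ
    (by positivity : (0 : ℝ) ≤ ε / 4) a (hg1 a) hN1
  set e' : Fin M → Fin k → Fin (N + d) := fun a => Fin.castAdd d ∘ e a with he'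
  have he'i : ∀ a, Function.Injective (e' a) := fun a =>
    (Fin.castAdd_injective N d).comp (he a)
  have hs' : ∀ a, ∑ b ∈ univ.erase a, (2 : ℝ) ^ (rg (e' a) ∩ rg (e' b)).card / 2 ^ k ≤ v := by
    intro a
    have h1 : ∀ a, rg (e' a) = (rg (e a)).image (Fin.castAdd d) := by
      intro a
      unfold rg
      rw [image_image]
    have h2 : ∀ b, (rg (e' a) ∩ rg (e' b)).card = (rg (e a) ∩ rg (e b)).card := by
      intro b
      rw [h1, h1, ← image_inter _ _ (Fin.castAdd_injective N d),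
        card_image_of_injective _ (Fin.castAdd_injective N d)]
    simp_rw [h2]
    refine hov (rg (e a)) a (card_rg (he a)).le fun b => ?_
    rw [inter_self]
    exact card_le_card inter_subset_left
  have hgap := gap' P
  set c0 : ℝ := (1 - δ * P.E0) / 2 with hc0
  have hc1 : (1 - δ * (P.E0 + β / 8)) / 2 - ε / 4 = c0 - 3 / 4 * ε := by
    rw [hc0]; linarith
  have hc2 : (1 - δ * (P.E1 - β / 8)) / 2 + ε / 4 ≤ c0 - 13 / 4 * ε := by
    have h1 := mul_le_mul_of_nonneg_left hgap hδ0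
    rw [hc0]
    linarith
  set θ : ℝ := c0 - 2 * ε with hθ
  have hp0 : ∀ (Ξ : Fin M × Cube k → V) x, 0 ≤ prb e' P.X δ Ξ x := fun Ξ x => by
    have := (prb_mem e' P.hX hδ0 hδ Ξ x).1; linarith
  have hp1 : ∀ (Ξ : Fin M × Cube k → V) x, prb e' P.X δ Ξ x ≤ 1 := fun Ξ x => by
    have := (prb_mem e' P.hX hδ0 hδ Ξ x).2; linarith
  -- the planted models
  have b1 : ∀ a : Fin M, 2 / 3 - 3 / 100 ≤
      ∑ f, law e' P.X δ (planted P a) f * accO A (Set.Iic θ) f := by
    intro a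
    rw [sum_law_mul]
    have h1 : EL (planted P a) (fun Ξ => Ex (prb e' P.X δ Ξ) (fun f =>
        2 / 3 - ind ((1 - δ * (P.E1 - β / 8)) / 2 + ε / 4 < distK k f))) ≤
        EL (planted P a) (fun Ξ => Ex (prb e' P.X δ Ξ) (accO A (Set.Iic θ))) :=
      EL_mono (planted_nonneg P a) fun Ξ => Ex_mono' (hp0 Ξ) (hp1 Ξ) fun f =>
        accept_small hA (by rw [hθ]; linarith) f
    refine le_trans ?_ h1
    have h2 : ∀ Ξ : Fin M × Cube k → V, Ex (prb e' P.X δ Ξ) (fun f =>
        2 / 3 - ind ((1 - δ * (P.E1 - β / 8)) / 2 + ε / 4 < distK k f)) =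
        2 / 3 - Ex (prb e' P.X δ Ξ) (fun f =>
          ind ((1 - δ * (P.E1 - β / 8)) / 2 + ε / 4 < distK k f)) := by
      intro Ξ
      have h3 : ∀ f : Cube (N + d) → Bool,
          2 / 3 - ind ((1 - δ * (P.E1 - β / 8)) / 2 + ε / 4 < distK k f) =
          2 / 3 + (-1) * ind ((1 - δ * (P.E1 - β / 8)) / 2 + ε / 4 < distK k f) :=
        fun f => by ring
      simp_rw [h3]
      rw [Ex_add, Ex_mul_left, Ex_const]
      ring
    simp_rw [h2]
    rw [EL_sub, EL_const (planted_sum P a)]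
    have := hd1 a
    linarith
  -- the null model
  have b2 : ∑ f, law e' P.X δ (null P) f * accO A (Set.Iic θ) f ≤ 1 / 3 + 3 / 100 := by
    rw [sum_law_mul]
    have h1 : EL (null P) (fun Ξ : Fin M × Cube k → V =>
        Ex (prb e' P.X δ Ξ) (accO A (Set.Iic θ))) ≤
        EL (null P) (fun Ξ : Fin M × Cube k → V => Ex (prb e' P.X δ Ξ) (fun f =>
        1 / 3 + ind (distK k f < (1 - δ * (P.E0 + β / 8)) / 2 - ε / 4))) :=
      EL_mono (null_nonneg P) fun Ξ => Ex_mono' (hp0 Ξ) (hp1 Ξ) fun f =>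
        reject_large hA (by rw [hc1, hθ]; linarith) f
    refine h1.trans ?_
    have h2 : ∀ Ξ : Fin M × Cube k → V, Ex (prb e' P.X δ Ξ) (fun f =>
        1 / 3 + ind (distK k f < (1 - δ * (P.E0 + β / 8)) / 2 - ε / 4)) =
        1 / 3 + Ex (prb e' P.X δ Ξ) (fun f =>
          ind (distK k f < (1 - δ * (P.E0 + β / 8)) / 2 - ε / 4)) := by
      intro Ξ
      rw [Ex_add, Ex_const]
    simp_rw [h2]
    rw [EL_add, EL_const (null_sum P)]
    linarith
  -- indistinguishability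
  have hq : ∀ S : Finset (Cube (N + d)), S.card ≤ q →
      (∑ a, ind (∃ z : Cube k, t₀ < (S.filter fun y : Cube (N + d) => y ∘ e' a = z).card)) * t₀ ≤
        2 * (q : ℝ) := by
    intro S hS
    exact hCMB (N + d) k M t₀ q v e' he'i hs' hcomb S hS
  have b3 := sum_accO A (Set.Iic θ) (fun f => (∑ a : Fin M, law e' P.X δ (planted P a) f) -
    M * law e' P.X δ (null P) f) (q := q)
    (D := 2 * q / t₀ + M * (2 ^ k * (8 / 3 * (1 / 4) ^ D))) hA.1 (by
      intro T hT
      have h1 := ENG_indist P e' hδ0 hδ ht htδ hq (O := Set.Iic θ) ⟨θ, Set.mem_Iic.mpr le_rfl⟩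
        T hT
      have h2 : ∑ f, ((∑ a : Fin M, law e' P.X δ (planted P a) f) -
          M * law e' P.X δ (null P) f) * oi T (Set.Iic θ) f =
          (∑ a, EL (planted P a) (fun Ξ => Ex (prb e' P.X δ Ξ) (oi T (Set.Iic θ)))) -
          M * EL (null P) (fun Ξ : Fin M × Cube k → V =>
            Ex (prb e' P.X δ Ξ) (oi T (Set.Iic θ))) := by
        simp_rw [← sum_law_mul, sub_mul, sum_mul]
        rw [sum_sub_distrib, sum_comm, mul_sum]
        congr 1
        exact sum_congr rfl fun f _ => by ring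
      rw [h2]
      linarith)
  have b4 : ∑ f, ((∑ a : Fin M, law e' P.X δ (planted P a) f) -
      M * law e' P.X δ (null P) f) * accO A (Set.Iic θ) f =
      (∑ a : Fin M, ∑ f, law e' P.X δ (planted P a) f * accO A (Set.Iic θ) f) -
      M * ∑ f, law e' P.X δ (null P) f * accO A (Set.Iic θ) f := by
    simp_rw [sub_mul, sum_mul]
    rw [sum_sub_distrib, sum_comm, mul_sum]
    congr 1
    exact sum_congr rfl fun f _ => by ring
  rw [b4] at b3
  have b5 : (M : ℝ) * (2 / 3 - 3 / 100) ≤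
      ∑ a : Fin M, ∑ f, law e' P.X δ (planted P a) f * accO A (Set.Iic θ) f := by
    calc (M : ℝ) * (2 / 3 - 3 / 100) = ∑ _a : Fin M, (2 / 3 - 3 / 100 : ℝ) := by
          rw [sum_const, card_univ, Fintype.card_fin, nsmul_eq_mul]
      _ ≤ _ := sum_le_sum fun a _ => b1 a
  have b6 := mul_le_mul_of_nonneg_left b2 hM0.le
  have b7 : 2 * (q : ℝ) / t₀ ≤ M / 5 := by
    rw [div_le_iff₀ ht0]
    linarith
  have b8 := mul_le_mul_of_nonneg_left hD hM0.le
  linarith

end Pool.Agent.Work.MP_8f25a0_lc.Ex
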