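import Pool.Agent.Work.MP_8f25a0_ex.Interface

/-!
# Distance to `k`-juntas, block FIN: the theorem
-/

set_option autoImplicit false

namespace Pool.Agent.Work.MP_8f25a0_lc.Ex

open Finset Pool.Agent.Work.MP_8f25a0_lc.Decoy

theorem FIN_upper {n k : ℕ} {ε : ℝ} (hn : 0 < n) (hk : 1 ≤ k) (hε0 : 0 < ε) (hε4 : ε < 1 / 4) :
    (queryComplexity n k ε : ℝ) ≤
      2000 * k * min (2 ^ n) ((2 ^ k + Real.log (min n (1 / ε))) / ε ^ 2) := by
  have hk1 : (1 : ℝ) ≤ k := by exact_mod_cast hk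
  have hL0 := log_min_nonneg hn hε0 hε4
  obtain ⟨L, hL⟩ : ∃ L : ℝ, L = Real.log (min (n : ℝ) (1 / ε)) := ⟨_, rfl⟩
  have h1 := upper_min hn k hε0 hε4
  rw [← hL] at h1 hL0 ⊢
  have h2k : (0 : ℝ) < 2 ^ k := by positivity
  have h2 : min (2 ^ n) ((2 ^ k + (k : ℝ) * L) / ε ^ 2) ≤
      (k : ℝ) * min (2 ^ n : ℝ) ((2 ^ k + L) / ε ^ 2) := by
    rw [mul_min_of_nonneg _ _ (by positivity)]
    apply min_le_min
    · exact le_mul_of_one_le_left (by positivity) hk1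
    · rw [← mul_div_assoc]
      apply div_le_div_of_nonneg_right _ (by positivity)
      have : (2 : ℝ) ^ k ≤ (k : ℝ) * 2 ^ k := le_mul_of_one_le_left h2k.le hk1
      linarith
  calc (queryComplexity n k ε : ℝ) ≤ 2000 * min (2 ^ n) ((2 ^ k + (k : ℝ) * L) / ε ^ 2) := h1
    _ ≤ 2000 * ((k : ℝ) * min (2 ^ n : ℝ) ((2 ^ k + L) / ε ^ 2)) := by gcongr
    _ = 2000 * k * min (2 ^ n : ℝ) ((2 ^ k + L) / ε ^ 2) := by ring

theorem FIN_weak {m a b q : ℝ} (hm : 0 ≤ m) (ha : 0 < a) (hab : a ≤ b) (h : m / a ≤ q) :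
    m / b ≤ q :=
  (div_le_div_of_nonneg_left hm ha hab).trans h

theorem p_FIN (hTWO : Stmt_TWO) : Stmt_FIN := by
  classical
  obtain ⟨θ₀, hθ₀, -, hall⟩ := two_sided_all
  have hall1 : ∀ c : ℝ, ∃ C : ℝ, 1 ≤ C ∧ (0 < c → ∀ (n k : ℕ) (ε : ℝ), 1 ≤ k → (1 + c) * k ≤ n →
      0 < ε → ε < 1 / 4 → ε ≤ 2 ^ (-(c * k)) →
      (Real.log n ≤ 2 ^ k ∨ Real.log (min n (1 / ε)) / ε ^ 2 ≤ 2 ^ n / 2 ^ k) →
      min (2 ^ n) ((2 ^ k + Real.log (min n (1 / ε))) / ε ^ 2) / (C * 2 ^ ((1 - θ₀ c) * k)) ≤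
        queryComplexity n k ε) := by
    intro c
    by_cases hc : 0 < c
    · obtain ⟨C, hC, h⟩ := hall c hc
      exact ⟨C, hC, fun _ n k ε a1 a2 a3 a4 a5 a6 => (h n k ε a1 a2 a3 a4 a5 a6).1⟩
    · exact ⟨1, le_refl 1, fun h => absurd h hc⟩
  choose C₀ hC₀ hlow using hall1
  obtain ⟨C₁, hC₁, htwo⟩ := hTWO
  obtain ⟨C, hCdef⟩ : ∃ C : ℝ, C = max C₁ (C₀ 1) := ⟨_, rfl⟩
  have hCC₁ : C₁ ≤ C := hCdef ▸ le_max_left _ _
  have hCC₀ : C₀ 1 ≤ C := hCdef ▸ le_max_right _ _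
  have hC1 : 1 ≤ C := hC₁.trans hCC₁
  have hC0 : 0 < C := by linarith
  refine ⟨C, fun c => if c < 1 then θ₀ c else max (1 - C / c) (θ₀ 1),
    fun c => if c < 1 then C₀ c else C, hC1, ?_, ?_, ?_⟩
  · intro c hc
    by_cases h1 : c < 1
    · simp only [h1, if_true]
      exact ⟨hθ₀ c hc, by linarith [hC₀ c]⟩
    · simp only [h1, if_false]
      exact ⟨lt_of_lt_of_le (hθ₀ 1 one_pos) (le_max_right _ _), hC0⟩
  · intro c hc
    have h1 : ¬ c < 1 := not_lt.mpr hc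
    simp only [h1, if_false]
    exact ⟨trivial, le_max_left _ _⟩
  · intro c n k ε hc hk hn hε0 hε4 hεc hcond
    have hk1 : (1 : ℝ) ≤ k := by exact_mod_cast hk
    have hk0 : (0 : ℝ) < k := by linarith
    have hn0 : 0 < n := by
      have h1 : (0 : ℝ) < n := by nlinarith
      exact_mod_cast h1
    have hk11 : (1 : ℝ) ≤ (k : ℝ) ^ 11 := one_le_pow₀ hk1
    have hL0 := log_min_nonneg hn0 hε0 hε4
    refine ⟨?_, FIN_upper hn0 hk hε0 hε4⟩
    have hm0 : (0 : ℝ) ≤ min (2 ^ n) ((2 ^ k + Real.log (min n (1 / ε))) / ε ^ 2) := by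
      positivity
    by_cases h1 : c < 1
    · simp only [h1, if_true]
      have h2 := hlow c hc n k ε hk hn hε0 hε4 hεc hcond
      have hg : (0 : ℝ) < 2 ^ ((1 - θ₀ c) * k) := Real.rpow_pos_of_pos (by norm_num) _
      have hC₀c : 0 < C₀ c := by linarith [hC₀ c]
      refine FIN_weak hm0 (by positivity) ?_ h2
      apply mul_le_mul_of_nonneg_right _ hg.le
      exact le_mul_of_one_le_right hC₀c.le hk11
    · simp only [h1, if_false]
      have hc1 : 1 ≤ c := not_lt.mp h1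
      rcases le_total (θ₀ 1) (1 - C / c) with h3 | h3
      · rw [max_eq_left h3]
        have h4 := (htwo c n k ε hc1 hk hn hε0 hε4 hεc hcond).1
        have e1 : (1 - (1 - C / c)) * (k : ℝ) = C * k / c := by
          field_simp
          ring
        rw [e1]
        have hg : (0 : ℝ) < 2 ^ (C * k / c) := Real.rpow_pos_of_pos (by norm_num) _
        rw [div_le_iff₀ (by positivity)]
        refine h4.trans ?_
        have h5 : (2 : ℝ) ^ (C₁ * k / c) ≤ 2 ^ (C * k / c) := by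
          apply Real.rpow_le_rpow_of_exponent_le (by norm_num)
          gcongr
        have hq : (0 : ℝ) ≤ queryComplexity n k ε := Nat.cast_nonneg _
        calc C₁ * (k : ℝ) ^ 11 * 2 ^ (C₁ * k / c) * (queryComplexity n k ε : ℝ)
            ≤ C * (k : ℝ) ^ 11 * 2 ^ (C * k / c) * (queryComplexity n k ε : ℝ) := by gcongr
          _ = (queryComplexity n k ε : ℝ) * (C * (k : ℝ) ^ 11 * 2 ^ (C * k / c)) := by ring
      · rw [max_eq_right h3]
        have hn2 : (1 + 1) * (k : ℝ) ≤ n := by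
          refine le_trans ?_ hn
          nlinarith
        have hε2 : ε ≤ 2 ^ (-(1 * (k : ℝ))) := by
          refine hεc.trans ?_
          apply Real.rpow_le_rpow_of_exponent_le (by norm_num)
          nlinarith
        have h2 := hlow 1 one_pos n k ε hk hn2 hε0 hε4 hε2 hcond
        have hg : (0 : ℝ) < 2 ^ ((1 - θ₀ 1) * k) := Real.rpow_pos_of_pos (by norm_num) _
        have hC₀c : 0 < C₀ 1 := by linarith [hC₀ 1]
        refine FIN_weak hm0 (by positivity) ?_ h2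
        apply mul_le_mul_of_nonneg_right _ hg.le
        calc C₀ 1 ≤ C := hCC₀
          _ ≤ C * (k : ℝ) ^ 11 := le_mul_of_one_le_right hC0.le hk11

end Pool.Agent.Work.MP_8f25a0_lc.Ex
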