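import Pool.Agent.Work.MP_8f25a0_ex.Interface

set_option autoImplicit false

namespace Pool.Agent.Work.MP_8f25a0_lc.Ex

open Finset Pool.Agent.Work.MP_8f25a0_lc.Decoy

theorem GST_v {L Q m v : ℝ} (hm : 0 < m) (hQ : 0 < Q) (hv : 0 < v) (hL : L ≤ 10 * Q)
    (h : v ≤ 1 / (10 ^ 7 * Q * m ^ 4)) : 512 * v * L ≤ (1 / (2 * m ^ 2)) ^ 2 := by
  have h1 : v * (10 ^ 7 * Q * m ^ 4) ≤ 1 := by rwa [le_div_iff₀ (by positivity)] at h
  have h2 : 512 * v * L ≤ 512 * v * (10 * Q) := mul_le_mul_of_nonneg_left hL (by positivity)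
  refine h2.trans ?_
  rw [div_pow, one_pow, le_div_iff₀ (by positivity)]
  have h3 : 0 < v * (Q * m ^ 4) := by positivity
  nlinarith

theorem GST_comb {X K Q m ε v : ℝ} (hm : 0 < m) (hQ : 0 < Q) (hv : 0 < v) (hε : 0 < ε)
    (hK : K + 6 ≤ 7 * Q) (hX : X * ε ^ 2 ≤ 64 * (K + 6))
    (h : v ≤ 1 / (10 ^ 7 * Q * m ^ 4)) : X * v ≤ 3 / (32768 * m ^ 4 * ε ^ 2) / 2 := by
  have h1 : v * (10 ^ 7 * Q * m ^ 4) ≤ 1 := by rwa [le_div_iff₀ (by positivity)] at h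
  rw [div_div, le_div_iff₀ (by positivity)]
  have h2 : X * ε ^ 2 ≤ 448 * Q := by linarith
  have h3 : 0 < v * m ^ 4 := by positivity
  calc X * v * (32768 * m ^ 4 * ε ^ 2 * 2) = 65536 * ((X * ε ^ 2) * (v * m ^ 4)) := by ring
    _ ≤ 65536 * ((448 * Q) * (v * m ^ 4)) := by
        have := mul_le_mul_of_nonneg_right h2 h3.le
        linarith
    _ = 65536 * 448 * (v * (Q * m ^ 4)) := by ring
    _ ≤ 3 := by nlinarith

theorem p_GST (h1 : Stmt_ENG) : Stmt_GST := by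
  intro k N d M q Q v ε e hk hM he hOv hv hQN hQk hMk hvv g3 hn0 hlog hε0 g6 g7 hlo hhi A hA
  have hk1 : (1 : ℝ) ≤ k := by exact_mod_cast hk
  have hm : (0 : ℝ) < (k : ℝ) + 3 := by linarith
  have hM1 : 1 ≤ M := by omega
  have hQ : 0 < Q := by linarith
  obtain ⟨P⟩ := exists_pair (k + 3) (by omega)
  have hcast : (((k + 3 : ℕ) : ℝ)) = (k : ℝ) + 3 := by push_cast; ring
  set β : ℝ := 1 / (2 * (((k + 3 : ℕ) : ℝ)) ^ 2) with hβ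
  have hβ' : β = 1 / (2 * ((k : ℝ) + 3) ^ 2) := by rw [hβ, hcast]
  have hβ0 : 0 < β := by rw [hβ']; positivity
  have hx : 1 ≤ 3 / (16384 * ((k : ℝ) + 3) ^ 4 * ε ^ 2) := by
    rw [le_div_iff₀ (by positivity), one_mul]
    exact g7
  obtain ⟨ht2, ht1⟩ := half_floor hx
  have ht3 : ((⌊3 / (16384 * ((k : ℝ) + 3) ^ 4 * ε ^ 2)⌋₊ : ℕ) : ℝ) ≤
      3 / (16384 * ((k : ℝ) + 3) ^ 4 * ε ^ 2) := Nat.floor_le (by positivity)
  obtain ⟨t₀, ht₀⟩ : ∃ t₀ : ℕ, t₀ = ⌊3 / (16384 * ((k : ℝ) + 3) ^ 4 * ε ^ 2)⌋₊ := ⟨_, rfl⟩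
  rw [← ht₀] at ht1 ht2 ht3
  have ht4 : 3 / (32768 * ((k : ℝ) + 3) ^ 4 * ε ^ 2) ≤ t₀ := by
    refine le_trans (le_of_eq ?_) ht2
    rw [div_div]
    congr 1
    ring
  have h8 : 8 * ε / β = 16 * ((k : ℝ) + 3) ^ 2 * ε := by
    rw [hβ']; field_simp; norm_num
  have c6 : (2 : ℝ) ^ k * (8 / 3 * (1 / 4) ^ (2 * (k + 3))) ≤ 1 / 100 := by
    have h1 : ((1 : ℝ) / 4) ^ (2 * (k + 3)) = 1 / (2 ^ k * 2 ^ k * 2 ^ k * 2 ^ k * 4096) := by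
      rw [one_div_pow]
      congr 1
      rw [show (4 : ℝ) = 2 ^ 2 by norm_num, ← pow_mul]
      rw [show 2 * (2 * (k + 3)) = k + k + k + k + 12 by ring, pow_add, pow_add, pow_add, pow_add]
      norm_num
    rw [h1]
    have h2 : (1 : ℝ) ≤ 2 ^ k := one_le_pow₀ (by norm_num)
    have h3 : (1 : ℝ) ≤ 2 ^ k * 2 ^ k * 2 ^ k := by
      have := one_le_mul_of_one_le_of_one_le h2 h2
      exact one_le_mul_of_one_le_of_one_le this h2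
    have h4 : (2 : ℝ) ^ k * (8 / 3 * (1 / (2 ^ k * 2 ^ k * 2 ^ k * 2 ^ k * 4096))) =
        1 / (1536 * (2 ^ k * 2 ^ k * 2 ^ k)) := by
      field_simp
      norm_num
    rw [h4]
    apply one_div_le_one_div_of_le (by norm_num)
    linarith
  have c7 : (t₀ : ℝ) * (4 / 3 * (8 * ε / β) ^ 2) ≤ 1 / 16 := by
    rw [h8]
    have h2 : 4 / 3 * (16 * ((k : ℝ) + 3) ^ 2 * ε) ^ 2 = 1024 / 3 * (((k : ℝ) + 3) ^ 4 * ε ^ 2) := by
      ring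
    rw [h2]
    calc (t₀ : ℝ) * (1024 / 3 * (((k : ℝ) + 3) ^ 4 * ε ^ 2)) ≤
          3 / (16384 * ((k : ℝ) + 3) ^ 4 * ε ^ 2) * (1024 / 3 * (((k : ℝ) + 3) ^ 4 * ε ^ 2)) :=
          mul_le_mul_of_nonneg_right ht3 (by positivity)
      _ = 1 / 16 := by field_simp; norm_num
  have c3 : 512 * v * (N * Real.log 4 + Real.log (200 * M)) ≤ (1 / (2 * ((k : ℝ) + 3) ^ 2)) ^ 2 :=
    GST_v hm hQ hv (gs_log hk hM1 hMk hQN hQk) hvv
  have c4 := gs_c hm hMk g3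
  have c8 := num_N (n := N + d) hn0 hk hlog hlo
  have c9 : (2 : ℝ) ^ (N + d) / 2 ^ k * v ≤ t₀ / 2 :=
    (GST_comb hm hQ hv hε0 (by linarith) hhi hvv).trans (by linarith)
  have hfin := h1 N d k M t₀ q (2 * (k + 3)) (Fin (2 * (k + 3) + 1)) β ε v P e hβ0 he hOv hv hM
    hn0 (by rw [hβ']; exact c3) (by rw [hβ']; exact c4) hε0 (by rw [h8]; exact g6) c6 c8 ht1 c7
    c9 A hA
  refine le_trans ?_ hfin
  have h1 : 3 / (32768 * ((k : ℝ) + 3) ^ 4 * ε ^ 2) * M ≤ t₀ * M :=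
    mul_le_mul_of_nonneg_right ht4 (Nat.cast_nonneg _)
  linarith

end Pool.Agent.Work.MP_8f25a0_lc.Ex
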