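import Pool.Agent.Work.MP_8f25a0_ex.Interface

/-! # Block RC0: the block code -/

set_option autoImplicit false

namespace Pool.Agent.Work.MP_8f25a0_lc.Ex

open Finset Pool.Agent.Work.MP_8f25a0_lc.Decoy

theorem RC0_inj {M k q : ℕ} (φ : Fin M → Fin k → Fin q) (a : Fin M) :
    Function.Injective (cod φ a) :=
  fun _ _ hij => (Prod.mk.inj (finProdFinEquiv.injective hij)).1

theorem p_RC0 : Stmt_RC0 := by
  intro M k q φ
  refine ⟨RC0_inj φ, fun J a => ?_, fun a b => ?_⟩
  · have h : J ∩ rg (cod φ a) =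
        (univ.filter fun i => (finProdFinEquiv (i, φ a i) : Fin (k * q)) ∈ J).image
          (cod φ a) := by
      ext x
      rw [mem_inter, mem_image]
      constructor
      · rintro ⟨hx, hx2⟩
        obtain ⟨i, _, rfl⟩ := mem_image.1 hx2
        exact ⟨i, mem_filter.2 ⟨mem_univ _, hx⟩, rfl⟩
      · rintro ⟨i, hi, rfl⟩
        exact ⟨(mem_filter.1 hi).2, mem_image.2 ⟨i, mem_univ _, rfl⟩⟩
    rw [h, card_image_of_injective _ (RC0_inj φ a)]
    rfl
  · have h : rg (cod φ a) ∩ rg (cod φ b) =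
        (univ.filter fun i => φ a i = φ b i).image (cod φ a) := by
      ext x
      rw [mem_inter, mem_image]
      constructor
      · rintro ⟨hx1, hx2⟩
        obtain ⟨i, _, hi⟩ := mem_image.1 hx1
        obtain ⟨j, _, hj⟩ := mem_image.1 hx2
        have h2 : ((i, φ a i) : Fin k × Fin q) = (j, φ b j) :=
          finProdFinEquiv.injective (hi.trans hj.symm)
        have h3 : i = j := (Prod.mk.inj h2).1
        subst h3
        exact ⟨i, mem_filter.2 ⟨mem_univ _, (Prod.mk.inj h2).2⟩, hi⟩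
      · rintro ⟨i, hi, rfl⟩
        have h2 := (mem_filter.1 hi).2
        refine ⟨mem_image.2 ⟨i, mem_univ _, rfl⟩, mem_image.2 ⟨i, mem_univ _, ?_⟩⟩
        unfold cod
        rw [h2]
    rw [h, card_image_of_injective _ (RC0_inj φ a)]

end Pool.Agent.Work.MP_8f25a0_lc.Ex
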