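import Pool.Agent.Work.MP_8f25a0_ex.Interface

/-!
# Block RC1: the mean of `2 ^ hit`
-/

set_option autoImplicit false

namespace Pool.Agent.Work.MP_8f25a0_lc.Ex

open Finset Pool.Agent.Work.MP_8f25a0_lc.Decoy

theorem p_RC1 : Stmt_RC1 := by
  intro k q J hq hJ
  have hqR : (0 : ℝ) < q := by exact_mod_cast hq
  have h1 : ∀ c : Fin k → Fin q, (2 : ℝ) ^ hit J c =
      ∏ i, (if (finProdFinEquiv (i, c i) : Fin (k * q)) ∈ J then (2 : ℝ) else 1) := by
    intro c
    rw [Finset.prod_ite, Finset.prod_const, Finset.prod_const, one_pow, mul_one]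
    rfl
  have h2 : ∑ c : Fin k → Fin q, (2 : ℝ) ^ hit J c =
      ∏ i : Fin k, ∑ j : Fin q,
        (if (finProdFinEquiv (i, j) : Fin (k * q)) ∈ J then (2 : ℝ) else 1) := by
    rw [Finset.prod_univ_sum, Fintype.piFinset_univ]
    exact Finset.sum_congr rfl fun c _ => h1 c
  have h3 : ∀ i : Fin k, ∑ j : Fin q,
      (if (finProdFinEquiv (i, j) : Fin (k * q)) ∈ J then (2 : ℝ) else 1) ≤
      q * Real.exp (((univ.filter fun j : Fin q =>
        (finProdFinEquiv (i, j) : Fin (k * q)) ∈ J).card : ℝ) / q) := by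
    intro i
    have h31 : ∑ j : Fin q,
        (if (finProdFinEquiv (i, j) : Fin (k * q)) ∈ J then (2 : ℝ) else 1) =
        q + ((univ.filter fun j : Fin q =>
          (finProdFinEquiv (i, j) : Fin (k * q)) ∈ J).card : ℝ) := by
      have e : ∀ j : Fin q,
          (if (finProdFinEquiv (i, j) : Fin (k * q)) ∈ J then (2 : ℝ) else 1) =
          1 + (if (finProdFinEquiv (i, j) : Fin (k * q)) ∈ J then (1 : ℝ) else 0) := by
        intro j
        split_ifs <;> norm_num
      rw [Finset.sum_congr rfl fun j _ => e j, Finset.sum_add_distrib]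
      simp
    rw [h31]
    generalize (((univ.filter fun j : Fin q =>
          (finProdFinEquiv (i, j) : Fin (k * q)) ∈ J).card : ℕ) : ℝ) = a
    have h4 := Real.add_one_le_exp (a / (q : ℝ))
    calc (q : ℝ) + a = q * (a / q + 1) := by
          rw [mul_add, mul_div_cancel₀ _ hqR.ne', mul_one, add_comm]
      _ ≤ _ := mul_le_mul_of_nonneg_left h4 hqR.le
  have h5 : ∑ i : Fin k, (univ.filter fun j : Fin q =>
      (finProdFinEquiv (i, j) : Fin (k * q)) ∈ J).card ≤ k := by
    refine le_trans (le_of_eq ?_) hJ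
    simp only [Finset.card_filter]
    rw [← Fintype.sum_prod_type (f := fun p : Fin k × Fin q =>
      if (finProdFinEquiv p : Fin (k * q)) ∈ J then 1 else 0),
      Equiv.sum_comp finProdFinEquiv (fun x : Fin (k * q) => if x ∈ J then 1 else 0)]
    simp
  rw [h2]
  calc _ ≤ ∏ i : Fin k, ((q : ℝ) * Real.exp (((univ.filter fun j : Fin q =>
        (finProdFinEquiv (i, j) : Fin (k * q)) ∈ J).card : ℝ) / q)) :=
        Finset.prod_le_prod (fun i _ => Finset.sum_nonneg fun j _ => by
          split_ifs <;> norm_num) fun i _ => h3 i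
    _ = (q : ℝ) ^ k * Real.exp (∑ i : Fin k, ((univ.filter fun j : Fin q =>
        (finProdFinEquiv (i, j) : Fin (k * q)) ∈ J).card : ℝ) / q) := by
        rw [Finset.prod_mul_distrib, Finset.prod_const, Real.exp_sum, Finset.card_univ,
          Fintype.card_fin]
    _ ≤ _ := by
        refine mul_le_mul_of_nonneg_left (Real.exp_le_exp.2 ?_) (by positivity)
        rw [← Finset.sum_div]
        refine div_le_div_of_nonneg_right ?_ hqR.le
        exact_mod_cast h5

end Pool.Agent.Work.MP_8f25a0_lc.Ex
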