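import Pool.Agent.Work.MP_8f25a0_ex.Interface

set_option autoImplicit false

namespace Pool.Agent.Work.MP_8f25a0_lc.Ex

open Finset Pool.Agent.Work.MP_8f25a0_lc.Decoy

theorem RC2_exp {y : ℝ} (h0 : 0 ≤ y) (h1 : y ≤ 1) : Real.exp y ≤ 1 + 2 * y := by
  have h := Real.abs_exp_sub_one_sub_id_le (x := y) (by rw [abs_of_nonneg h0]; exact h1)
  have h2 := (abs_le.1 h).2
  nlinarith

theorem RC2_nonneg {k q : ℕ} (J : Finset (Fin (k * q))) (B : ℝ) (c : Fin k → Fin q) :
    0 ≤ YY J B c := by
  unfold YY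
  split_ifs
  · positivity
  · exact le_rfl

theorem RC2_leB {k q : ℕ} (J : Finset (Fin (k * q))) {B : ℝ} (hB : 0 < B) (c : Fin k → Fin q) :
    YY J B c ≤ B := by
  unfold YY
  split_ifs with h
  · exact h
  · exact hB.le

theorem RC2_le {k q : ℕ} (J : Finset (Fin (k * q))) (B : ℝ) (c : Fin k → Fin q) :
    YY J B c ≤ 2 ^ hit J c := by
  unfold YY
  split_ifs
  · exact le_rfl
  · positivity

theorem p_RC2 (hRC1 : Stmt_RC1) : Stmt_RC2 := by
  intro k q M J B E u hq hJ hB hE
  have hQ : (0 : ℝ) < (q : ℝ) ^ k := by positivity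
  -- one word
  have h1 : ∑ c : Fin k → Fin q, Real.exp (YY J B c / B) ≤ (q : ℝ) ^ k * Real.exp (2 * E / B) := by
    have ha : ∀ c : Fin k → Fin q, Real.exp (YY J B c / B) ≤ 1 + 2 / B * 2 ^ hit J c := by
      intro c
      have hb := RC2_exp (y := YY J B c / B) (div_nonneg (RC2_nonneg J B c) hB.le)
        ((div_le_one hB).2 (RC2_leB J hB c))
      have hc : YY J B c / B ≤ 2 ^ hit J c / B := by
        gcongr
        exact RC2_le J B c
      have hd : 2 / B * 2 ^ hit J c = 2 * ((2 : ℝ) ^ hit J c / B) := by ring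
      rw [hd]
      linarith
    calc ∑ c : Fin k → Fin q, Real.exp (YY J B c / B)
        ≤ ∑ c : Fin k → Fin q, (1 + 2 / B * (2 : ℝ) ^ hit J c) := Finset.sum_le_sum fun c _ => ha c
      _ = (q : ℝ) ^ k + 2 / B * ∑ c : Fin k → Fin q, (2 : ℝ) ^ hit J c := by
          rw [Finset.sum_add_distrib, Finset.mul_sum]
          congr 1
          simp
      _ ≤ (q : ℝ) ^ k + 2 / B * ((q : ℝ) ^ k * E) := by
          gcongr
          exact (hRC1 k q J hq hJ).trans (by gcongr)
      _ = (q : ℝ) ^ k * (2 * E / B + 1) := by ring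
      _ ≤ (q : ℝ) ^ k * Real.exp (2 * E / B) := by
          gcongr
          exact Real.add_one_le_exp _
  -- all words
  have h2 : ∑ φ : Fin M → Fin k → Fin q, Real.exp ((∑ b, YY J B (φ b)) / B) ≤
      ((q : ℝ) ^ k) ^ M * Real.exp (2 * M * E / B) := by
    have ha : ∑ φ : Fin M → Fin k → Fin q, Real.exp ((∑ b, YY J B (φ b)) / B) =
        (∑ c : Fin k → Fin q, Real.exp (YY J B c / B)) ^ M := by
      have hb : ∀ φ : Fin M → Fin k → Fin q, Real.exp ((∑ b, YY J B (φ b)) / B) =
          ∏ b, Real.exp (YY J B (φ b) / B) := by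
        intro φ
        rw [← Real.exp_sum, Finset.sum_div]
      simp_rw [hb]
      have hc := Finset.prod_univ_sum (ι := Fin M) (fun _ => (univ : Finset (Fin k → Fin q)))
        (fun _ c => Real.exp (YY J B c / B))
      rw [Fintype.piFinset_univ] at hc
      rw [← hc]
      simp
    rw [ha]
    calc (∑ c : Fin k → Fin q, Real.exp (YY J B c / B)) ^ M
        ≤ ((q : ℝ) ^ k * Real.exp (2 * E / B)) ^ M :=
          pow_le_pow_left₀ (Finset.sum_nonneg fun c _ => (Real.exp_pos _).le) h1 M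
      _ = ((q : ℝ) ^ k) ^ M * Real.exp (2 * M * E / B) := by
          rw [mul_pow, ← Real.exp_nat_mul]
          congr 2
          ring
  -- Markov
  set A := univ.filter fun φ : Fin M → Fin k → Fin q =>
    2 * M * E + B * u < ∑ b, YY J B (φ b) with hA
  have h3 : (A.card : ℝ) * (Real.exp (2 * M * E / B) * Real.exp u) ≤
      ((q : ℝ) ^ k) ^ M * Real.exp (2 * M * E / B) := by
    calc (A.card : ℝ) * (Real.exp (2 * M * E / B) * Real.exp u)
        = ∑ φ ∈ A, (Real.exp (2 * M * E / B) * Real.exp u) := by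
          rw [Finset.sum_const, nsmul_eq_mul]
      _ ≤ ∑ φ ∈ A, Real.exp ((∑ b, YY J B (φ b)) / B) := by
          refine Finset.sum_le_sum fun φ hφ => ?_
          rw [← Real.exp_add]
          apply Real.exp_le_exp.2
          rw [hA, Finset.mem_filter] at hφ
          have h4 : 2 * M * E / B + u = (2 * M * E + B * u) / B := by
            field_simp
          rw [h4]
          gcongr
          exact hφ.2.le
      _ ≤ ∑ φ : Fin M → Fin k → Fin q, Real.exp ((∑ b, YY J B (φ b)) / B) := by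
          refine Finset.sum_le_sum_of_subset_of_nonneg (Finset.subset_univ _) fun φ _ _ =>
            (Real.exp_pos _).le
      _ ≤ _ := h2
  have h5 : (0 : ℝ) < Real.exp (2 * M * E / B) := Real.exp_pos _
  have h6 : (A.card : ℝ) * Real.exp u ≤ ((q : ℝ) ^ k) ^ M := by
    refine le_of_mul_le_mul_right ?_ h5
    calc (A.card : ℝ) * Real.exp u * Real.exp (2 * M * E / B)
        = (A.card : ℝ) * (Real.exp (2 * M * E / B) * Real.exp u) := by ring
      _ ≤ _ := h3
  calc (A.card : ℝ) = (A.card : ℝ) * Real.exp u * Real.exp (-u) := by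
        rw [mul_assoc, ← Real.exp_add]; simp
    _ ≤ ((q : ℝ) ^ k) ^ M * Real.exp (-u) := by gcongr

end Pool.Agent.Work.MP_8f25a0_lc.Ex
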