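import Pool.Agent.Work.MP_8f25a0_ex.Interface

/-! Block RC3 (helper90): two words agree in few places. -/

set_option autoImplicit false

namespace Pool.Agent.Work.MP_8f25a0_lc.Ex

open Finset Pool.Agent.Work.MP_8f25a0_lc.Decoy

theorem RC3_T {k q M : ℕ} (a b : Fin M) (hab : a ≠ b) (T : Finset (Fin k)) :
    (univ.filter fun φ : Fin M → Fin k → Fin q => ∀ i ∈ T, φ a i = φ b i).card * q ^ T.card
      ≤ (q ^ k) ^ M := by
  classical
  have h1 : ((univ.filter fun φ : Fin M → Fin k → Fin q => ∀ i ∈ T, φ a i = φ b i) ×ˢ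
      (univ : Finset (T → Fin q))).card =
      (univ.filter fun φ : Fin M → Fin k → Fin q => ∀ i ∈ T, φ a i = φ b i).card * q ^ T.card := by
    rw [card_product, card_univ, Fintype.card_fun, Fintype.card_fin, Fintype.card_coe]
  have h2 : (univ : Finset (Fin M → Fin k → Fin q)).card = (q ^ k) ^ M := by
    rw [card_univ, Fintype.card_fun, Fintype.card_fun, Fintype.card_fin, Fintype.card_fin,
      Fintype.card_fin]
  rw [← h1, ← h2]
  refine card_le_card_of_injOn
    (fun p : (Fin M → Fin k → Fin q) × (T → Fin q) => fun (c : Fin M) (i : Fin k) =>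
      if h : c = a ∧ i ∈ T then p.2 ⟨i, h.2⟩ else p.1 c i) (fun _ _ => mem_coe.2 (mem_univ _)) ?_
  rintro ⟨φ, t⟩ hp ⟨φ', t'⟩ hp' he
  have hφ : ∀ i ∈ T, φ a i = φ b i := (mem_filter.1 (mem_product.1 (mem_coe.1 hp)).1).2
  have hφ' : ∀ i ∈ T, φ' a i = φ' b i := (mem_filter.1 (mem_product.1 (mem_coe.1 hp')).1).2
  have key : ∀ c i, (if h : c = a ∧ i ∈ T then t ⟨i, h.2⟩ else φ c i) =
      (if h : c = a ∧ i ∈ T then t' ⟨i, h.2⟩ else φ' c i) := fun c i => congrFun (congrFun he c) i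
  have hb : ∀ c i, ¬ (c = a ∧ i ∈ T) → φ c i = φ' c i := by
    intro c i h
    have := key c i
    rwa [dif_neg h, dif_neg h] at this
  refine Prod.ext ?_ ?_
  · funext c i
    change φ c i = φ' c i
    by_cases h : c = a ∧ i ∈ T
    · obtain ⟨rfl, hi⟩ := h
      rw [hφ i hi, hφ' i hi]
      exact hb b i fun h => hab h.1.symm
    · exact hb c i h
  · funext ⟨i, hi⟩
    have := key a i
    rwa [dif_pos ⟨rfl, hi⟩, dif_pos ⟨rfl, hi⟩] at this

theorem p_RC3 : Stmt_RC3 := by
  classical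
  intro k q M s a b _ hab
  have h1 : (univ.filter fun φ : Fin M → Fin k → Fin q =>
      s + 1 ≤ (univ.filter fun i => φ a i = φ b i).card) ⊆
      (powersetCard (s + 1) (univ : Finset (Fin k))).biUnion fun T =>
        univ.filter fun φ : Fin M → Fin k → Fin q => ∀ i ∈ T, φ a i = φ b i := by
    intro φ hφ
    obtain ⟨T, hT, hc⟩ := exists_subset_card_eq (mem_filter.1 hφ).2
    refine mem_biUnion.2 ⟨T, mem_powersetCard.2 ⟨subset_univ _, hc⟩, ?_⟩
    exact mem_filter.2 ⟨mem_univ _, fun i hi => (mem_filter.1 (hT hi)).2⟩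
  calc (univ.filter fun φ : Fin M → Fin k → Fin q =>
      s + 1 ≤ (univ.filter fun i => φ a i = φ b i).card).card * q ^ (s + 1)
      ≤ (∑ T ∈ powersetCard (s + 1) (univ : Finset (Fin k)),
        (univ.filter fun φ : Fin M → Fin k → Fin q => ∀ i ∈ T, φ a i = φ b i).card)
          * q ^ (s + 1) := Nat.mul_le_mul_right _ ((card_le_card h1).trans card_biUnion_le)
    _ = ∑ T ∈ powersetCard (s + 1) (univ : Finset (Fin k)),
        (univ.filter fun φ : Fin M → Fin k → Fin q => ∀ i ∈ T, φ a i = φ b i).card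
          * q ^ (s + 1) := sum_mul _ _ _
    _ ≤ ∑ _T ∈ powersetCard (s + 1) (univ : Finset (Fin k)), (q ^ k) ^ M := by
        refine sum_le_sum fun T hT => ?_
        have h2 := RC3_T (q := q) a b hab T
        rwa [(mem_powersetCard.1 hT).2] at h2
    _ = k.choose (s + 1) * (q ^ k) ^ M := by
        rw [sum_const, card_powersetCard, card_univ, Fintype.card_fin, smul_eq_mul]
    _ ≤ 2 ^ k * (q ^ k) ^ M := Nat.mul_le_mul_right _ (Nat.choose_le_two_pow _ _)

end Pool.Agent.Work.MP_8f25a0_lc.Ex
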