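import Pool.Agent.Work.MP_8f25a0_ex.Interface

set_option autoImplicit false

namespace Pool.Agent.Work.MP_8f25a0_lc.Ex

open Finset Pool.Agent.Work.MP_8f25a0_lc.Decoy

theorem RCD_exp (N : ℕ) : (2 : ℝ) ^ N * Real.exp (-((N : ℝ) + 2)) ≤ 1 / 4 := by
  have h1 : (2 : ℝ) ^ (N + 2) ≤ Real.exp ((N : ℝ) + 2) := by
    have h2 : Real.exp ((N : ℝ) + 2) = Real.exp 1 ^ (N + 2) := by
      rw [← Real.exp_nat_mul]; push_cast; ring_nf
    rw [h2]
    apply pow_le_pow_left₀ (by norm_num)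
    have := Real.exp_one_gt_d9
    linarith
  rw [pow_add] at h1
  rw [Real.exp_neg, ← div_eq_mul_inv, div_le_div_iff₀ (Real.exp_pos _) (by norm_num)]
  linarith

theorem RCD_one (h2 : Stmt_RC2) (k q M : ℕ) (B E : ℝ) (hq0 : 0 < q) (hB0 : 0 < B)
    (hexp : Real.exp (k / q) ≤ E) :
    ((((univ.filter fun J : Finset (Fin (k * q)) => J.card ≤ k).biUnion fun J =>
      univ.filter fun φ : Fin M → Fin k → Fin q =>
        2 * M * E + B * ((k * q : ℕ) + 2) < ∑ b, YY J B (φ b)).card : ℕ) : ℝ) ≤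
      ((q : ℝ) ^ k) ^ M / 4 := by
  have hW : (0 : ℝ) ≤ ((q : ℝ) ^ k) ^ M := by positivity
  have e1 : ((((univ.filter fun J : Finset (Fin (k * q)) => J.card ≤ k).biUnion fun J =>
      univ.filter fun φ : Fin M → Fin k → Fin q =>
        2 * M * E + B * ((k * q : ℕ) + 2) < ∑ b, YY J B (φ b)).card : ℕ) : ℝ) ≤
      ∑ J ∈ univ.filter fun J : Finset (Fin (k * q)) => J.card ≤ k,
        ((univ.filter fun φ : Fin M → Fin k → Fin q =>
          2 * M * E + B * ((k * q : ℕ) + 2) < ∑ b, YY J B (φ b)).card : ℝ) := by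
    exact_mod_cast card_biUnion_le
  have e2 : ∑ J ∈ univ.filter fun J : Finset (Fin (k * q)) => J.card ≤ k,
        ((univ.filter fun φ : Fin M → Fin k → Fin q =>
          2 * M * E + B * ((k * q : ℕ) + 2) < ∑ b, YY J B (φ b)).card : ℝ) ≤
      ∑ J ∈ univ.filter fun J : Finset (Fin (k * q)) => J.card ≤ k,
        ((q : ℝ) ^ k) ^ M * Real.exp (-(((k * q : ℕ) : ℝ) + 2)) :=
    sum_le_sum fun J hJ => h2 k q M J B E _ hq0 (mem_filter.1 hJ).2 hB0 hexp
  rw [sum_const, nsmul_eq_mul] at e2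
  have e3 : (((univ.filter fun J : Finset (Fin (k * q)) => J.card ≤ k).card : ℕ) : ℝ) ≤
      2 ^ (k * q) := by
    have h4 : (univ.filter fun J : Finset (Fin (k * q)) => J.card ≤ k).card ≤ 2 ^ (k * q) := by
      refine (card_filter_le _ _).trans (le_of_eq ?_)
      rw [card_univ, Fintype.card_finset, Fintype.card_fin]
    exact_mod_cast h4
  have e4 := RCD_exp (k * q)
  have e5 : (0 : ℝ) ≤ ((q : ℝ) ^ k) ^ M * Real.exp (-(((k * q : ℕ) : ℝ) + 2)) := by positivity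
  calc _ ≤ _ := e1
    _ ≤ _ := e2
    _ ≤ 2 ^ (k * q) * (((q : ℝ) ^ k) ^ M * Real.exp (-(((k * q : ℕ) : ℝ) + 2))) :=
        mul_le_mul_of_nonneg_right e3 e5
    _ = ((q : ℝ) ^ k) ^ M * (2 ^ (k * q) * Real.exp (-(((k * q : ℕ) : ℝ) + 2))) := by ring
    _ ≤ ((q : ℝ) ^ k) ^ M * (1 / 4) := mul_le_mul_of_nonneg_left e4 hW
    _ = _ := by ring

theorem RCD_two (h3 : Stmt_RC3) (k q M s : ℕ) (hq0 : 0 < q)
    (hcount : 4 * M ^ 2 * 2 ^ k ≤ q ^ (s + 1)) :
    4 * ((univ.filter fun ab : Fin M × Fin M => ab.1 ≠ ab.2).biUnion fun ab =>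
      univ.filter fun φ : Fin M → Fin k → Fin q =>
        s + 1 ≤ (univ.filter fun i => φ ab.1 i = φ ab.2 i).card).card ≤ (q ^ k) ^ M := by
  have hqs : 0 < q ^ (s + 1) := pow_pos hq0 _
  apply Nat.le_of_mul_le_mul_right _ hqs
  have e1 : ((univ.filter fun ab : Fin M × Fin M => ab.1 ≠ ab.2).biUnion fun ab =>
      univ.filter fun φ : Fin M → Fin k → Fin q =>
        s + 1 ≤ (univ.filter fun i => φ ab.1 i = φ ab.2 i).card).card * q ^ (s + 1) ≤
      M ^ 2 * (2 ^ k * (q ^ k) ^ M) := by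
    calc _ ≤ (∑ ab ∈ univ.filter fun ab : Fin M × Fin M => ab.1 ≠ ab.2,
          (univ.filter fun φ : Fin M → Fin k → Fin q =>
            s + 1 ≤ (univ.filter fun i => φ ab.1 i = φ ab.2 i).card).card) * q ^ (s + 1) :=
          Nat.mul_le_mul_right _ card_biUnion_le
      _ = ∑ ab ∈ univ.filter fun ab : Fin M × Fin M => ab.1 ≠ ab.2,
          (univ.filter fun φ : Fin M → Fin k → Fin q =>
            s + 1 ≤ (univ.filter fun i => φ ab.1 i = φ ab.2 i).card).card * q ^ (s + 1) := by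
          rw [sum_mul]
      _ ≤ ∑ ab ∈ univ.filter fun ab : Fin M × Fin M => ab.1 ≠ ab.2, 2 ^ k * (q ^ k) ^ M :=
          sum_le_sum fun ab hab => h3 k q M s ab.1 ab.2 hq0 (mem_filter.1 hab).2
      _ = (univ.filter fun ab : Fin M × Fin M => ab.1 ≠ ab.2).card * (2 ^ k * (q ^ k) ^ M) := by
          rw [sum_const, smul_eq_mul]
      _ ≤ M ^ 2 * (2 ^ k * (q ^ k) ^ M) := by
          apply Nat.mul_le_mul_right
          refine (card_filter_le _ _).trans (le_of_eq ?_)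
          rw [card_univ, Fintype.card_prod, Fintype.card_fin, sq]
  calc _ = 4 * (((univ.filter fun ab : Fin M × Fin M => ab.1 ≠ ab.2).biUnion fun ab =>
      univ.filter fun φ : Fin M → Fin k → Fin q =>
        s + 1 ≤ (univ.filter fun i => φ ab.1 i = φ ab.2 i).card).card * q ^ (s + 1)) := by
        rw [mul_assoc]
    _ ≤ 4 * (M ^ 2 * (2 ^ k * (q ^ k) ^ M)) := Nat.mul_le_mul_left _ e1
    _ = (4 * M ^ 2 * 2 ^ k) * (q ^ k) ^ M := by ring
    _ ≤ q ^ (s + 1) * (q ^ k) ^ M := Nat.mul_le_mul_right _ hcount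
    _ = _ := by rw [mul_comm]

theorem p_RCD (h0 : Stmt_RC0) (h2 : Stmt_RC2) (h3 : Stmt_RC3) : Stmt_RCD := by
  intro k q M s r hk hq hM hcount hexp
  have hq0 : 0 < q := hq
  have hB0 : (0 : ℝ) < 2 ^ ((k + s) / 2) := by positivity
  have hW : (0 : ℝ) < ((q : ℝ) ^ k) ^ M := by
    have : (0 : ℝ) < q := by exact_mod_cast hq0
    positivity
  have c1 := RCD_one h2 k q M (2 ^ ((k + s) / 2)) (2 ^ r) hq0 hB0 hexp
  have c2 := RCD_two h3 k q M s hq0 hcount
  obtain ⟨S1, hS1⟩ : ∃ S : Finset (Fin M → Fin k → Fin q), S =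
      (univ.filter fun J : Finset (Fin (k * q)) => J.card ≤ k).biUnion fun J =>
      univ.filter fun φ : Fin M → Fin k → Fin q =>
        2 * M * 2 ^ r + 2 ^ ((k + s) / 2) * (((k * q : ℕ) : ℝ) + 2) <
          ∑ b, YY J (2 ^ ((k + s) / 2)) (φ b) := ⟨_, rfl⟩
  obtain ⟨S2, hS2⟩ : ∃ S : Finset (Fin M → Fin k → Fin q), S =
      (univ.filter fun ab : Fin M × Fin M => ab.1 ≠ ab.2).biUnion fun ab =>
      univ.filter fun φ : Fin M → Fin k → Fin q =>
        s + 1 ≤ (univ.filter fun i => φ ab.1 i = φ ab.2 i).card := ⟨_, rfl⟩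
  rw [← hS1] at c1
  rw [← hS2] at c2
  have c2' : (S2.card : ℝ) ≤ ((q : ℝ) ^ k) ^ M / 4 := by
    have : ((4 * S2.card : ℕ) : ℝ) ≤ (((q ^ k) ^ M : ℕ) : ℝ) := by exact_mod_cast c2
    push_cast at this
    linarith
  obtain ⟨φ, hφ1, hφ2⟩ : ∃ φ : Fin M → Fin k → Fin q, φ ∉ S1 ∧ φ ∉ S2 := by
    by_contra hcon
    push Not at hcon
    have e1 : (univ : Finset (Fin M → Fin k → Fin q)).card ≤ S1.card + S2.card := by
      refine le_trans (card_le_card fun φ _ => ?_) (card_union_le S1 S2)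
      rw [mem_union]
      by_cases h : φ ∈ S1
      · exact Or.inl h
      · exact Or.inr (hcon φ h)
    have e2 : (univ : Finset (Fin M → Fin k → Fin q)).card = (q ^ k) ^ M := by
      rw [card_univ, Fintype.card_fun, Fintype.card_fun, Fintype.card_fin, Fintype.card_fin,
        Fintype.card_fin]
    rw [e2] at e1
    have e3 : (((q ^ k) ^ M : ℕ) : ℝ) ≤ (S1.card : ℝ) + (S2.card : ℝ) := by exact_mod_cast e1
    push_cast at e3
    linarith
  obtain ⟨i1, i2, i3⟩ := h0 M k q φ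
  refine ⟨cod φ, i1, ?_⟩
  intro J a hJ hmax
  have f1 : ∑ b, YY J (2 ^ ((k + s) / 2)) (φ b) ≤
      2 * M * 2 ^ r + 2 ^ ((k + s) / 2) * (((k * q : ℕ) : ℝ) + 2) := by
    by_contra hlt
    push Not at hlt
    apply hφ1
    rw [hS1, mem_biUnion]
    exact ⟨J, mem_filter.2 ⟨mem_univ _, hJ⟩, mem_filter.2 ⟨mem_univ _, hlt⟩⟩
  have f2 : ∀ b, b ≠ a → (rg (cod φ b) ∩ rg (cod φ a)).card ≤ s := by
    intro b hba
    by_contra hlt
    push Not at hlt
    apply hφ2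
    rw [hS2, mem_biUnion]
    refine ⟨(b, a), mem_filter.2 ⟨mem_univ _, hba⟩, mem_filter.2 ⟨mem_univ _, ?_⟩⟩
    show s + 1 ≤ (univ.filter fun i => φ b i = φ a i).card
    rw [← i3 b a]
    exact hlt
  have hYY : ∀ b, 0 ≤ YY J (2 ^ ((k + s) / 2)) (φ b) := by
    intro b
    unfold YY
    split_ifs
    · positivity
    · exact le_rfl
  have f3 : ∀ b ∈ univ.erase a, (2 : ℝ) ^ (J ∩ rg (cod φ b)).card / 2 ^ k ≤
      YY J (2 ^ ((k + s) / 2)) (φ b) / 2 ^ k := by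
    intro b hb
    have hba : b ≠ a := (mem_erase.mp hb).1
    have h3 : (J ∩ rg (cod φ b)).card + (J ∩ rg (cod φ a)).card ≤ k + s := by
      have h4 : (J ∩ rg (cod φ b) ∪ J ∩ rg (cod φ a)).card +
          (J ∩ rg (cod φ b) ∩ (J ∩ rg (cod φ a))).card =
          (J ∩ rg (cod φ b)).card + (J ∩ rg (cod φ a)).card := card_union_add_card_inter _ _
      have h5 : (J ∩ rg (cod φ b) ∪ J ∩ rg (cod φ a)).card ≤ J.card :=
        card_le_card (union_subset inter_subset_left inter_subset_left)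
      have h6 : (J ∩ rg (cod φ b) ∩ (J ∩ rg (cod φ a))).card ≤
          (rg (cod φ b) ∩ rg (cod φ a)).card :=
        card_le_card (inter_subset_inter inter_subset_right inter_subset_right)
      have h7 := f2 b hba
      omega
    have h4 := hmax b
    have h5 : (J ∩ rg (cod φ b)).card ≤ (k + s) / 2 := by omega
    have h6 : (2 : ℝ) ^ (J ∩ rg (cod φ b)).card ≤ 2 ^ ((k + s) / 2) :=
      pow_le_pow_right₀ one_le_two h5
    rw [i2] at h6 ⊢
    have h7 : YY J (2 ^ ((k + s) / 2)) (φ b) = 2 ^ hit J (φ b) := by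
      unfold YY
      rw [if_pos h6]
    rw [h7]
  have h2k : (0 : ℝ) < 2 ^ k := by positivity
  calc ∑ b ∈ univ.erase a, (2 : ℝ) ^ (J ∩ rg (cod φ b)).card / 2 ^ k
      ≤ ∑ b ∈ univ.erase a, YY J (2 ^ ((k + s) / 2)) (φ b) / 2 ^ k := sum_le_sum f3
    _ ≤ ∑ b, YY J (2 ^ ((k + s) / 2)) (φ b) / 2 ^ k :=
        sum_le_sum_of_subset_of_nonneg (erase_subset _ _) fun b _ _ => div_nonneg (hYY b) h2k.le
    _ = (∑ b, YY J (2 ^ ((k + s) / 2)) (φ b)) / 2 ^ k := by rw [sum_div]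
    _ ≤ (2 * M * 2 ^ r + 2 ^ ((k + s) / 2) * (((k * q : ℕ) : ℝ) + 2)) / 2 ^ k :=
        div_le_div_of_nonneg_right f1 h2k.le
    _ = _ := by push_cast; ring

end Pool.Agent.Work.MP_8f25a0_lc.Ex
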