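import Pool.Agent.Work.MP_8f25a0_ex.Interface

/-!
# Block STP: the choice of the parameters
-/

set_option autoImplicit false

namespace Pool.Agent.Work.MP_8f25a0_lc.Ex

open Finset Pool.Agent.Work.MP_8f25a0_lc.Decoy

/-- `e ^ (k / Q) ≤ 2 ^ (2 ⌊k / Q⌋ + 2)`. -/
theorem STP_exp {k Q : ℕ} (hQ : 0 < Q) : Real.exp (k / Q) ≤ 2 ^ (2 * (k / Q) + 2) := by
  have hQ' : (0 : ℝ) < Q := by exact_mod_cast hQ
  have h1 : (k : ℝ) / Q ≤ ((k / Q + 1 : ℕ) : ℝ) := by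
    rw [div_le_iff₀ hQ']
    have h2 := Nat.lt_mul_div_succ k hQ
    have h3 : k ≤ (k / Q + 1) * Q := by
      rw [mul_comm]
      exact h2.le
    exact_mod_cast h3
  calc Real.exp (k / Q) ≤ Real.exp ((k / Q + 1 : ℕ) : ℝ) := Real.exp_le_exp.mpr h1
    _ = Real.exp 1 ^ (k / Q + 1) := by rw [← Real.exp_nat_mul, mul_one]
    _ ≤ 4 ^ (k / Q + 1) := by
        refine pow_le_pow_left₀ (Real.exp_pos 1).le ?_ _
        have := Real.exp_one_lt_d9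
        linarith
    _ = 2 ^ (2 * (k / Q) + 2) := by
        rw [show (4 : ℝ) = 2 ^ 2 by norm_num, ← pow_mul]
        congr 1

/-- the final number -/
theorem STP_num {a κ m e : ℝ} (ha : 0 < a) (hκ : 0 < κ) (hm : 0 < m) (he : 0 < e) :
    a / (10 ^ 13 * κ * m ^ 8 * e) ≤
      3 / (32768 * m ^ 4 * e) * (a / (4 * 10 ^ 7 * κ * m ^ 4) / 2) / 10 := by
  have e1 : a / (10 ^ 13 * κ * m ^ 8 * e) = (a / (κ * m ^ 8 * e)) * (1 / 10 ^ 13) := by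
    field_simp
  have e2 : 3 / (32768 * m ^ 4 * e) * (a / (4 * 10 ^ 7 * κ * m ^ 4) / 2) / 10 =
      (a / (κ * m ^ 8 * e)) * (3 / 26214400000000) := by
    field_simp
    norm_num
  rw [e1, e2]
  exact mul_le_mul_of_nonneg_left (by norm_num) (by positivity)

/-- the bound for the overlap -/
theorem STP_v {k Q M r p : ℕ} (hk : 1 ≤ k) (hQ : 1 ≤ Q) (hQk : Q ≤ k)
    (hst : 10 ^ 14 * ((k : ℝ) + 6) ^ 10 ≤ 2 ^ (k / 8)) (hp : p + k / 8 ≤ k)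
    (hM : (M : ℝ) ≤ 2 ^ k / 2 ^ r / (4 * 10 ^ 7 * (k * Q) * ((k : ℝ) + 3) ^ 4)) :
    (2 : ℝ) * M * 2 ^ r / 2 ^ k + (k * Q + 2) * 2 ^ p / 2 ^ k ≤
      1 / (10 ^ 7 * (k * Q) * ((k : ℝ) + 3) ^ 4) := by
  have hk1 : (1 : ℝ) ≤ k := by exact_mod_cast hk
  have hQ1 : (1 : ℝ) ≤ Q := by exact_mod_cast hQ
  have hQk' : (Q : ℝ) ≤ k := by exact_mod_cast hQk
  have hκ : (1 : ℝ) ≤ (k : ℝ) * Q := one_le_mul_of_one_le_of_one_le hk1 hQ1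
  have hκ2 : (k : ℝ) * Q ≤ k * k := by gcongr
  have hm : (0 : ℝ) < (k : ℝ) + 3 := by linarith
  have t1 : (2 : ℝ) * M * 2 ^ r / 2 ^ k ≤ 1 / (2 * 10 ^ 7 * (k * Q) * ((k : ℝ) + 3) ^ 4) := by
    calc (2 : ℝ) * M * 2 ^ r / 2 ^ k
        ≤ 2 * (2 ^ k / 2 ^ r / (4 * 10 ^ 7 * (k * Q) * ((k : ℝ) + 3) ^ 4)) * 2 ^ r / 2 ^ k := by
          gcongr
      _ = 1 / (2 * 10 ^ 7 * (k * Q) * ((k : ℝ) + 3) ^ 4) := by
          field_simp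
          norm_num
  have t2 : ((k : ℝ) * Q + 2) * 2 ^ p / 2 ^ k ≤
      1 / (2 * 10 ^ 7 * (k * Q) * ((k : ℝ) + 3) ^ 4) := by
    have h1 : (2 : ℝ) ^ p * 2 ^ (k / 8) ≤ 2 ^ k := by
      rw [← pow_add]
      exact pow_le_pow_right₀ (by norm_num) hp
    have h2 : ((k : ℝ) * Q + 2) * (2 * 10 ^ 7 * (k * Q) * ((k : ℝ) + 3) ^ 4) ≤ 2 ^ (k / 8) := by
      refine le_trans ?_ hst
      have a1 : (k : ℝ) * Q + 2 ≤ ((k : ℝ) + 6) ^ 2 := by nlinarith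
      have a2 : (k : ℝ) * Q ≤ ((k : ℝ) + 6) ^ 2 := by nlinarith
      have a3 : ((k : ℝ) + 3) ^ 4 ≤ ((k : ℝ) + 6) ^ 4 :=
        pow_le_pow_left₀ hm.le (by linarith) 4
      calc ((k : ℝ) * Q + 2) * (2 * 10 ^ 7 * (k * Q) * ((k : ℝ) + 3) ^ 4)
          ≤ ((k : ℝ) + 6) ^ 2 * (2 * 10 ^ 7 * ((k : ℝ) + 6) ^ 2 * ((k : ℝ) + 6) ^ 4) := by
            gcongr
        _ = 2 * 10 ^ 7 * ((k : ℝ) + 6) ^ 8 := by ring
        _ ≤ 10 ^ 14 * ((k : ℝ) + 6) ^ 10 := by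
            refine mul_le_mul (by norm_num) ?_ (by positivity) (by norm_num)
            exact pow_le_pow_right₀ (by linarith) (by norm_num)
    rw [div_le_div_iff₀ (by positivity) (by positivity), one_mul]
    calc ((k : ℝ) * Q + 2) * 2 ^ p * (2 * 10 ^ 7 * (k * Q) * ((k : ℝ) + 3) ^ 4)
        = 2 ^ p * (((k : ℝ) * Q + 2) * (2 * 10 ^ 7 * (k * Q) * ((k : ℝ) + 3) ^ 4)) := by ring
      _ ≤ 2 ^ p * 2 ^ (k / 8) := by gcongr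
      _ ≤ 2 ^ k := h1
  calc (2 : ℝ) * M * 2 ^ r / 2 ^ k + (k * Q + 2) * 2 ^ p / 2 ^ k
      ≤ 1 / (2 * 10 ^ 7 * (k * Q) * ((k : ℝ) + 3) ^ 4) +
        1 / (2 * 10 ^ 7 * (k * Q) * ((k : ℝ) + 3) ^ 4) := add_le_add t1 t2
    _ = 1 / (10 ^ 7 * (k * Q) * ((k : ℝ) + 3) ^ 4) := by
        field_simp
        norm_num

/-- the number of decoys -/
theorem STP_M {k Q r : ℕ} (hk : 1 ≤ k) (hQ : 1 ≤ Q) (hQk : Q ≤ k)
    (hst : 10 ^ 14 * ((k : ℝ) + 6) ^ 10 ≤ 2 ^ (k / 8)) (hr : r + k / 8 ≤ k) :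
    ∃ M : ℕ, 2 ≤ M ∧ (M : ℝ) ≤ 2 ^ k ∧
      (M : ℝ) ≤ 2 ^ k / 2 ^ r / (4 * 10 ^ 7 * (k * Q) * ((k : ℝ) + 3) ^ 4) ∧
      2 ^ k / 2 ^ r / (4 * 10 ^ 7 * (k * Q) * ((k : ℝ) + 3) ^ 4) / 2 ≤ M := by
  have hk1 : (1 : ℝ) ≤ k := by exact_mod_cast hk
  have hQ1 : (1 : ℝ) ≤ Q := by exact_mod_cast hQ
  have hQk' : (Q : ℝ) ≤ k := by exact_mod_cast hQk
  have hκ : (1 : ℝ) ≤ (k : ℝ) * Q := one_le_mul_of_one_le_of_one_le hk1 hQ1
  have hκ2 : (k : ℝ) * Q ≤ k * k := by gcongr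
  have hm : (0 : ℝ) < (k : ℝ) + 3 := by linarith
  have hW : 2 ≤ (2 : ℝ) ^ k / 2 ^ r / (4 * 10 ^ 7 * (k * Q) * ((k : ℝ) + 3) ^ 4) := by
    rw [div_div, le_div_iff₀ (by positivity)]
    have a2 : (k : ℝ) * Q ≤ ((k : ℝ) + 6) ^ 2 := by nlinarith
    have a3 : ((k : ℝ) + 3) ^ 4 ≤ ((k : ℝ) + 6) ^ 4 :=
      pow_le_pow_left₀ hm.le (by linarith) 4
    calc 2 * (2 ^ r * (4 * 10 ^ 7 * ((k : ℝ) * Q) * ((k : ℝ) + 3) ^ 4))
        ≤ 2 * (2 ^ r * (4 * 10 ^ 7 * ((k : ℝ) + 6) ^ 2 * ((k : ℝ) + 6) ^ 4)) := by gcongr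
      _ = 2 ^ r * (8 * 10 ^ 7 * ((k : ℝ) + 6) ^ 6) := by ring
      _ ≤ 2 ^ r * (10 ^ 14 * ((k : ℝ) + 6) ^ 10) := by
          refine mul_le_mul_of_nonneg_left ?_ (by positivity)
          refine mul_le_mul (by norm_num) ?_ (by positivity) (by norm_num)
          exact pow_le_pow_right₀ (by linarith) (by norm_num)
      _ ≤ 2 ^ r * 2 ^ (k / 8) := by gcongr
      _ = 2 ^ (r + k / 8) := by rw [pow_add]
      _ ≤ 2 ^ k := pow_le_pow_right₀ (by norm_num) hr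
  have hfl : ((⌊(2 : ℝ) ^ k / 2 ^ r / (4 * 10 ^ 7 * (k * Q) * ((k : ℝ) + 3) ^ 4)⌋₊ : ℕ) : ℝ) ≤
      2 ^ k / 2 ^ r / (4 * 10 ^ 7 * (k * Q) * ((k : ℝ) + 3) ^ 4) := Nat.floor_le (by positivity)
  refine ⟨⌊(2 : ℝ) ^ k / 2 ^ r / (4 * 10 ^ 7 * (k * Q) * ((k : ℝ) + 3) ^ 4)⌋₊, ?_, ?_, hfl, ?_⟩
  · exact Nat.le_floor (by exact_mod_cast hW)
  · refine hfl.trans ?_
    rw [div_div]
    apply div_le_self (by positivity)
    have h1 : (1 : ℝ) ≤ 2 ^ r := one_le_pow₀ (by norm_num)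
    have h2 : (1 : ℝ) ≤ ((k : ℝ) + 3) ^ 4 := one_le_pow₀ (by linarith)
    have h3 : (1 : ℝ) ≤ 4 * 10 ^ 7 * ((k : ℝ) * Q) := by linarith
    exact one_le_mul_of_one_le_of_one_le h1 (one_le_mul_of_one_le_of_one_le h3 h2)
  · exact (half_floor (by linarith)).1

theorem p_STP (hRCD : Stmt_RCD) (hGST : Stmt_GST) : Stmt_STP := by
  intro k Q n q ε hQ hQk hst hn hlog hε0 hε1 hlo hhi A hA
  obtain ⟨d, rfl⟩ := Nat.exists_eq_add_of_le hn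
  have hk : 1 ≤ k := by omega
  have hQ1 : 1 ≤ Q := by omega
  have hk1 : (1 : ℝ) ≤ k := by exact_mod_cast hk
  have hQ1' : (1 : ℝ) ≤ Q := by exact_mod_cast hQ1
  have hκ : (1 : ℝ) ≤ (k : ℝ) * Q := one_le_mul_of_one_le_of_one_le hk1 hQ1'
  have hkQ : k / Q ≤ k / 256 := Nat.div_le_div_left hQ (by norm_num)
  have hr : 2 * (k / Q) + 2 + k / 8 ≤ k := by omega
  obtain ⟨M, hM2, hMk, hM, hM'⟩ := STP_M (k := k) (Q := Q) (r := 2 * (k / Q) + 2) hk hQ1 hQk hst hr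
  -- the code
  have hcode : 4 * M ^ 2 * 2 ^ k ≤ Q ^ (k / 2 + 1) := by
    have h1 : M ≤ 2 ^ k := by exact_mod_cast hMk
    calc 4 * M ^ 2 * 2 ^ k ≤ 4 * (2 ^ k) ^ 2 * 2 ^ k := by gcongr
      _ = 2 ^ (3 * k + 2) := by ring
      _ ≤ 2 ^ (8 * (k / 2 + 1)) := Nat.pow_le_pow_right (by norm_num) (by omega)
      _ = 256 ^ (k / 2 + 1) := by rw [show (256 : ℕ) = 2 ^ 8 by norm_num, ← pow_mul]
      _ ≤ Q ^ (k / 2 + 1) := Nat.pow_le_pow_left hQ _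
  obtain ⟨e, he, hOv⟩ := hRCD k Q M (k / 2) (2 * (k / Q) + 2) hk hQ1 (by omega) hcode
    (STP_exp (by omega))
  have hv := STP_v (M := M) (r := 2 * (k / Q) + 2) (p := (k + k / 2) / 2) hk hQ1 hQk hst
    (by omega) hM
  have hv0 : (0 : ℝ) < 2 * M * 2 ^ (2 * (k / Q) + 2) / 2 ^ k +
      (k * Q + 2) * 2 ^ ((k + k / 2) / 2) / 2 ^ k := by positivity
  -- numbers
  have h2k3 : (k : ℝ) + 3 ≤ 2 ^ (k + 2) := by
    have h1 : k + 3 ≤ 2 ^ (k + 2) := by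
      have := Nat.lt_two_pow_self (n := k + 2)
      omega
    exact_mod_cast h1
  have hkN : 256 * k ≤ k * Q := by nlinarith
  have hkk : 256 ≤ k := by omega
  have hε2 : ε ^ 2 ≤ (1 / 2 ^ (k * Q)) ^ 2 := pow_le_pow_left₀ hε0.le hε1 2
  have n1 : 2048 * ((k : ℝ) + 3) ^ 4 * ((k : ℝ) + 5) ≤ 2 ^ k := by
    calc 2048 * ((k : ℝ) + 3) ^ 4 * ((k : ℝ) + 5)
        ≤ 2048 * ((k : ℝ) + 6) ^ 4 * ((k : ℝ) + 6) := by
          gcongr <;> norm_num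
      _ = 2048 * ((k : ℝ) + 6) ^ 5 := by ring
      _ ≤ 10 ^ 14 * ((k : ℝ) + 6) ^ 10 := by
          refine mul_le_mul (by norm_num) ?_ (by positivity) (by norm_num)
          exact pow_le_pow_right₀ (by linarith) (by norm_num)
      _ ≤ 2 ^ (k / 8) := hst
      _ ≤ 2 ^ k := pow_le_pow_right₀ (by norm_num) (Nat.div_le_self k 8)
  have n2 : (M : ℝ) * (16 * ((k : ℝ) + 3) ^ 2 * ε) ≤ 1 / 2 := by
    calc (M : ℝ) * (16 * ((k : ℝ) + 3) ^ 2 * ε)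
        ≤ 2 ^ k * (2 ^ 4 * (2 ^ (k + 2)) ^ 2 * (1 / 2 ^ (k * Q))) := by
          gcongr
          norm_num
      _ = 2 ^ (k + 4 + 2 * (k + 2)) / 2 ^ (k * Q) := by
          rw [← pow_mul, pow_add, pow_add]
          field_simp
          ring
      _ ≤ 2 ^ (k * Q - 1) / 2 ^ (k * Q) := by
          apply div_le_div_of_nonneg_right _ (by positivity)
          exact pow_le_pow_right₀ (by norm_num) (by omega)
      _ = 1 / 2 := by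
          rw [div_eq_div_iff (by positivity) (by norm_num), one_mul, ← pow_succ]
          congr 1
          omega
  have n3 : 16384 * ((k : ℝ) + 3) ^ 4 * ε ^ 2 ≤ 3 := by
    calc 16384 * ((k : ℝ) + 3) ^ 4 * ε ^ 2
        ≤ 2 ^ 14 * (2 ^ (k + 2)) ^ 4 * (1 / 2 ^ (k * Q)) ^ 2 := by
          gcongr
          norm_num
      _ = 2 ^ (14 + 4 * (k + 2)) / 2 ^ (2 * (k * Q)) := by
          rw [div_pow, one_pow, ← pow_mul, ← pow_mul, pow_add, mul_one_div]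
          congr 2 <;> ring
      _ ≤ 1 := by
          rw [div_le_one (by positivity)]
          exact pow_le_pow_right₀ (by norm_num) (by omega)
      _ ≤ 3 := by norm_num
  have hfin := hGST k (k * Q) d M q ((k : ℝ) * Q) _ ε e hk hM2 he hOv hv0
    (le_of_eq (by push_cast; ring)) (by nlinarith) hMk hv n1 (by omega) hlog hε0 n2 n3 hlo hhi A hA
  refine le_trans ?_ hfin
  have h2 := STP_num (a := 2 ^ k / 2 ^ (2 * (k / Q) + 2)) (κ := (k : ℝ) * Q) (m := (k : ℝ) + 3)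
    (e := ε ^ 2) (by positivity) (by positivity) (by positivity) (by positivity)
  refine h2.trans ?_
  gcongr

end Pool.Agent.Work.MP_8f25a0_lc.Ex
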