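import Pool.Agent.Work.MP_8f25a0_ex.Interface

set_option autoImplicit false

/-! # Block TWO: both bounds for `c ≥ 1` -/

namespace Pool.Agent.Work.MP_8f25a0_lc.Ex

open Finset Pool.Agent.Work.MP_8f25a0_lc.Decoy

/-- the number of variables which is used when `n` is very large -/
theorem TWO_n₀ {k : ℕ} {ε c : ℝ} (hk : 3 ≤ k) (hε0 : 0 < ε)
    (hεc : ε ≤ 2 ^ (-(c * k))) (hL : Real.log (1 / ε) < 2 ^ k) :
    ∃ n₀ : ℕ, (n₀ : ℝ) ≤ Real.exp (2 ^ k) ∧ (1 + c) * k ≤ n₀ ∧
      1 / ε ^ 2 ≤ 2 ^ n₀ / 2 ^ k := by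
  have hlog2 := Real.log_two_gt_d9
  have hck : c * k * Real.log 2 < 2 ^ k := by
    refine lt_of_le_of_lt ?_ hL
    rw [one_div, Real.log_inv]
    have h1 := Real.log_le_log hε0 hεc
    rw [Real.log_rpow (by norm_num)] at h1
    linarith
  have hx8 : (8 : ℝ) ≤ 2 ^ k := by
    calc (8 : ℝ) = 2 ^ 3 := by norm_num
      _ ≤ 2 ^ k := pow_le_pow_right₀ (by norm_num) hk
  have hck2 : c * k ≤ 2 * 2 ^ k := by
    by_contra hcon
    rw [not_le] at hcon
    have h1 : (2 * 2 ^ k : ℝ) * (1 / 2) ≤ c * k * Real.log 2 := by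
      apply mul_le_mul hcon.le (by linarith) (by norm_num)
      have : (0 : ℝ) < 2 * 2 ^ k := by positivity
      linarith
    linarith
  have hkx : (k : ℝ) ≤ 2 ^ k := by exact_mod_cast Nat.lt_two_pow_self.le
  have hk0 : (0 : ℝ) ≤ k := Nat.cast_nonneg _
  have hexp : 1 + 2 ^ k + (2 ^ k) ^ 2 / 2 ≤ Real.exp ((2 : ℝ) ^ k) :=
    Real.quadratic_le_exp_of_nonneg (by positivity)
  have hfl := Nat.lt_floor_add_one (Real.exp ((2 : ℝ) ^ k))
  have hn₀ : (2 : ℝ) ^ k + (2 ^ k) ^ 2 / 2 ≤ ⌊Real.exp ((2 : ℝ) ^ k)⌋₊ := by linarith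
  have h6 : 4 * (2 : ℝ) ^ k ≤ (2 ^ k : ℝ) ^ 2 / 2 := by nlinarith
  refine ⟨⌊Real.exp (2 ^ k)⌋₊, Nat.floor_le (Real.exp_pos _).le, ?_, ?_⟩
  · refine le_trans ?_ hn₀
    have h1 : (1 + c) * k = k + c * k := by ring
    rw [h1]
    linarith
  · have h1 : 1 / ε ^ 2 = Real.exp (2 * Real.log (1 / ε)) := by
      rw [show 2 * Real.log (1 / ε) = Real.log (1 / ε) + Real.log (1 / ε) by ring, Real.exp_add,
        Real.exp_log (by positivity)]
      ring
    have h2 : (2 : ℝ) ^ ⌊Real.exp ((2 : ℝ) ^ k)⌋₊ / 2 ^ k =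
        Real.exp (Real.log 2 * ⌊Real.exp ((2 : ℝ) ^ k)⌋₊ - Real.log 2 * k) := by
      rw [Real.exp_sub, Real.exp_mul, Real.exp_mul, Real.exp_log (by norm_num), Real.rpow_natCast,
        Real.rpow_natCast]
    rw [h1, h2]
    apply Real.exp_le_exp.mpr
    have h4 : (2 ^ k : ℝ) ^ 2 / 2 ≤ ⌊Real.exp ((2 : ℝ) ^ k)⌋₊ - k := by linarith
    have h5 := mul_le_mul_of_nonneg_left h4 (show (0 : ℝ) ≤ Real.log 2 by linarith)
    have h7 : 0.6 * (4 * (2 : ℝ) ^ k) ≤ Real.log 2 * ((2 ^ k : ℝ) ^ 2 / 2) := by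
      apply mul_le_mul (by linarith) h6 (by positivity) (by linarith)
    linarith

theorem p_TWO (hLOW : Stmt_LOW) : Stmt_TWO := by
  obtain ⟨C₁, hC₁, hlow⟩ := hLOW
  obtain ⟨C, hC⟩ : ∃ C : ℝ, C = 2 * C₁ + 40000000 := ⟨_, rfl⟩
  have hC1 : 1 ≤ C := by rw [hC]; linarith
  refine ⟨C, hC1, ?_⟩
  intro c n k ε hc hk hcn hε0 hε4 hεc hcond
  have hc0 : 0 < c := by linarith
  have hk1 : (1 : ℝ) ≤ k := by exact_mod_cast hk
  have hkn : k < n := by
    have h1 : (k : ℝ) < n := by nlinarith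
    exact_mod_cast h1
  have hn : 0 < n := by omega
  have hL0 := log_min_nonneg hn hε0 hε4
  obtain ⟨L, hL⟩ : ∃ L : ℝ, L = Real.log (min (n : ℝ) (1 / ε)) := ⟨_, rfl⟩
  rw [← hL] at hcond hL0 ⊢
  have hq : (0 : ℝ) ≤ queryComplexity n k ε := Nat.cast_nonneg _
  have h2k : (0 : ℝ) < 2 ^ k := by positivity
  have hm0 : (0 : ℝ) ≤ min (2 ^ n) ((2 ^ k + L) / ε ^ 2) := by positivity
  have hk11 : (k : ℝ) ≤ (k : ℝ) ^ 11 := le_self_pow₀ hk1 (by norm_num)
  have hk11' : (1 : ℝ) ≤ (k : ℝ) ^ 11 := one_le_pow₀ hk1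
  have hg : (1 : ℝ) ≤ 2 ^ (C * k / c) := Real.one_le_rpow (by norm_num) (by positivity)
  have hgg : (2 : ℝ) ^ (C₁ * k / c) ≤ 2 ^ (C * k / c) := by
    apply Real.rpow_le_rpow_of_exponent_le (by norm_num)
    apply div_le_div_of_nonneg_right _ hc0.le
    apply mul_le_mul_of_nonneg_right _ (by linarith)
    rw [hC]; linarith
  constructor
  · -- the lower bound
    have hfinish : ∀ x : ℝ, 2 ^ k * x ≤ C₁ * (k : ℝ) ^ 11 * 2 ^ (C₁ * k / c) *
        (queryComplexity n k ε : ℝ) →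
        2 * 2 ^ k * x ≤ C * (k : ℝ) ^ 11 * 2 ^ (C * k / c) * (queryComplexity n k ε : ℝ) := by
      intro x hx
      have h1 : 2 * 2 ^ k * x ≤ 2 * (C₁ * (k : ℝ) ^ 11 * 2 ^ (C₁ * k / c) *
          (queryComplexity n k ε : ℝ)) := by linarith
      refine h1.trans ?_
      have h2 : 2 * (C₁ * (k : ℝ) ^ 11 * 2 ^ (C₁ * k / c) * (queryComplexity n k ε : ℝ)) =
          (2 * C₁) * (k : ℝ) ^ 11 * 2 ^ (C₁ * k / c) * (queryComplexity n k ε : ℝ) := by ring
      rw [h2]
      have h3 : 2 * C₁ ≤ C := by rw [hC]; linarith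
      gcongr
    have hconst : ∀ (a x : ℝ), 0 ≤ a → a ≤ C → x ≤ a * (k : ℝ) ^ 11 *
        (queryComplexity n k ε : ℝ) →
        x ≤ C * (k : ℝ) ^ 11 * 2 ^ (C * k / c) * (queryComplexity n k ε : ℝ) := by
      intro a x ha haC hx
      refine hx.trans ?_
      calc a * (k : ℝ) ^ 11 * (queryComplexity n k ε : ℝ)
          ≤ C * (k : ℝ) ^ 11 * (queryComplexity n k ε : ℝ) := by gcongr
        _ = C * (k : ℝ) ^ 11 * 1 * (queryComplexity n k ε : ℝ) := by ring
        _ ≤ C * (k : ℝ) ^ 11 * 2 ^ (C * k / c) * (queryComplexity n k ε : ℝ) := by gcongr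
    have hLbound : L ≤ 2 ^ k → min (2 ^ n) ((2 ^ k + L) / ε ^ 2) ≤
        2 * 2 ^ k * min (2 ^ n / 2 ^ k) (1 / ε ^ 2) := by
      intro hLk
      rw [mul_min_of_nonneg _ _ (by positivity)]
      apply min_le_min
      · rw [mul_assoc, mul_div_cancel₀ _ h2k.ne']
        have : (0 : ℝ) < 2 ^ n := by positivity
        linarith
      · rw [mul_one_div]
        apply div_le_div_of_nonneg_right _ (by positivity)
        linarith
    rcases le_or_gt (Real.log n) (2 ^ k) with hlog | hlog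
    · have h1 := hlow c n k ε hc hk hcn hlog hε0 hε4 hεc
      have hLk : L ≤ 2 ^ k := by
        refine le_trans ?_ hlog
        rw [hL]
        apply Real.log_le_log
        · exact lt_min (by exact_mod_cast hn) (by positivity)
        · exact min_le_left _ _
      exact (hLbound hLk).trans (hfinish _ h1)
    · have hcond2 : L / ε ^ 2 ≤ 2 ^ n / 2 ^ k := hcond.resolve_left (not_le.mpr hlog)
      rcases le_or_gt (2 ^ k) L with hLk | hLk
      · -- many variables and very small `ε`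
        have h1 := explicit_lower hk hkn hε0 hε4
        rw [← hL, min_eq_right hcond2] at h1
        have hlk : 0 ≤ Real.log k := Real.log_nonneg hk1
        rw [div_le_iff₀ (by positivity)] at h1
        have h2 : 1 + Real.log k ≤ (k : ℝ) ^ 11 := by
          have := Real.log_le_sub_one_of_pos (show (0 : ℝ) < k by linarith)
          linarith
        refine hconst 40000000 _ (by norm_num) (by rw [hC]; linarith) ?_
        calc min (2 ^ n) ((2 ^ k + L) / ε ^ 2) ≤ (2 ^ k + L) / ε ^ 2 := min_le_right _ _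
          _ ≤ (2 * L) / ε ^ 2 := by
              apply div_le_div_of_nonneg_right _ (by positivity)
              linarith
          _ = 2 * (L / ε ^ 2) := by ring
          _ ≤ 2 * (queryComplexity n k ε * (20000000 * (1 + Real.log k))) := by gcongr
          _ ≤ 2 * (queryComplexity n k ε * (20000000 * (k : ℝ) ^ 11)) := by gcongr
          _ = 40000000 * (k : ℝ) ^ 11 * (queryComplexity n k ε : ℝ) := by ring
      · -- many variables
        rcases lt_or_ge k 3 with hkk | hkk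
        · -- small `k`
          obtain ⟨A, hA⟩ := exists_approximates n k hε0.le
          have h1 := lower_bound hkn hε0 hε4 hA
          have h2 : min (2 ^ n / 2 ^ k) (1 / ε ^ 2) ≤ min (2 ^ n) (1 / ε ^ 2) := by
            apply min_le_min_right
            exact div_le_self (by positivity) (one_le_pow₀ (by norm_num))
          have h3 : (2 : ℝ) ^ k ≤ 2 ^ 2 := pow_le_pow_right₀ (by norm_num) (by omega)
          have h0 : (0 : ℝ) ≤ min (2 ^ n) (1 / ε ^ 2) := by positivity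
          refine hconst 32000 _ (by norm_num) (by rw [hC]; linarith) ?_
          calc min (2 ^ n) ((2 ^ k + L) / ε ^ 2)
              ≤ 2 * 2 ^ k * min (2 ^ n / 2 ^ k) (1 / ε ^ 2) := hLbound hLk.le
            _ ≤ 2 * 2 ^ 2 * min (2 ^ n) (1 / ε ^ 2) := by gcongr
            _ ≤ 2 * 2 ^ 2 * (4000 * queryComplexity n k ε) := by
                apply mul_le_mul_of_nonneg_left _ (by positivity)
                linarith
            _ = 32000 * 1 * (queryComplexity n k ε : ℝ) := by ring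
            _ ≤ 32000 * (k : ℝ) ^ 11 * (queryComplexity n k ε : ℝ) := by gcongr
        · have hmin : min (n : ℝ) (1 / ε) = 1 / ε := by
            apply min_eq_right
            by_contra hcon
            push Not at hcon
            rw [min_eq_left hcon.le] at hL
            linarith
          rw [hmin] at hL
          obtain ⟨n₀, hn₀e, hn₀C, hn₀ε⟩ := TWO_n₀ hkk hε0 hεc (hL ▸ hLk)
          have hn₀n : n₀ ≤ n := by
            have h1 : (n₀ : ℝ) ≤ n := by
              refine hn₀e.trans ?_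
              rw [← Real.le_log_iff_exp_le (by exact_mod_cast hn)]
              exact hlog.le
            exact_mod_cast h1
          have hn₀0 : (0 : ℝ) < n₀ := by nlinarith
          have hlog₀ : Real.log n₀ ≤ 2 ^ k := (Real.log_le_iff_le_exp hn₀0).mpr hn₀e
          have h1 := hlow c n₀ k ε hc hk hn₀C hlog₀ hε0 hε4 hεc
          rw [min_eq_right hn₀ε] at h1
          have h2 : (queryComplexity n₀ k ε : ℝ) ≤ queryComplexity n k ε := by
            exact_mod_cast qc_mono hε0.le hn₀n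
          have h3 := h1.trans (mul_le_mul_of_nonneg_left h2
            (by positivity : (0 : ℝ) ≤ C₁ * (k : ℝ) ^ 11 * 2 ^ (C₁ * k / c)))
          refine le_trans ?_ (hfinish _ h3)
          calc min (2 ^ n) ((2 ^ k + L) / ε ^ 2) ≤ (2 ^ k + L) / ε ^ 2 := min_le_right _ _
            _ ≤ (2 * 2 ^ k) / ε ^ 2 := by
                apply div_le_div_of_nonneg_right _ (by positivity)
                linarith
            _ = 2 * 2 ^ k * (1 / ε ^ 2) := by ring
  · -- the upper bound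
    have h1 := upper_min hn k hε0 hε4
    rw [← hL] at h1
    have h2 : min (2 ^ n) ((2 ^ k + (k : ℝ) * L) / ε ^ 2) ≤
        (k : ℝ) * min (2 ^ n : ℝ) ((2 ^ k + L) / ε ^ 2) := by
      rw [mul_min_of_nonneg _ _ (by positivity)]
      apply min_le_min
      · exact le_mul_of_one_le_left (by positivity) hk1
      · rw [← mul_div_assoc]
        apply div_le_div_of_nonneg_right _ (by positivity)
        have : (2 : ℝ) ^ k ≤ (k : ℝ) * 2 ^ k := le_mul_of_one_le_left h2k.le hk1
        linarith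
    calc (queryComplexity n k ε : ℝ) ≤ 2000 * min (2 ^ n) ((2 ^ k + (k : ℝ) * L) / ε ^ 2) := h1
      _ ≤ 2000 * ((k : ℝ) * min (2 ^ n : ℝ) ((2 ^ k + L) / ε ^ 2)) := by gcongr
      _ = 2000 * k * min (2 ^ n : ℝ) ((2 ^ k + L) / ε ^ 2) := by ring

end Pool.Agent.Work.MP_8f25a0_lc.Ex
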