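import Pool.Agent.Work.MP_8f25a0_ex.Interface

/-! # Block CMB: few decoys have a full cell -/

set_option autoImplicit false

namespace Pool.Agent.Work.MP_8f25a0_lc.Ex

open Finset Pool.Agent.Work.MP_8f25a0_lc.Decoy

theorem CMB_nat (d : ℕ) : 2 * (d : ℝ) ≤ 2 + ((d : ℝ) * d - d) := by
  have h := b10_ineq d
  have h1 : d ≤ d * d := Nat.le_mul_self d
  have h2 : ((d * d - d : ℕ) : ℝ) = (d : ℝ) * d - d := by
    rw [Nat.cast_sub h1, Nat.cast_mul]
  rw [← h2]
  exact_mod_cast h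

theorem CMB_abs {ι α : Type*} [DecidableEq ι] [DecidableEq α] (A : Finset ι) (S : Finset α)
    (C : ι → Finset α) (t w : ℝ) (hC : ∀ a ∈ A, C a ⊆ S) (ht : ∀ a ∈ A, t ≤ ((C a).card : ℝ))
    (hI : ∀ a ∈ A, ∑ b ∈ A.erase a, ((C a ∩ C b).card : ℝ) ≤ w) :
    2 * (A.card * t) ≤ 2 * S.card + A.card * w := by
  set χ : ι → α → ℝ := fun a x => if x ∈ C a then 1 else 0 with hχ
  have h1 : ∑ x ∈ S, ∑ a ∈ A, χ a x = ∑ a ∈ A, ((C a).card : ℝ) := by
    rw [sum_comm]
    refine sum_congr rfl fun a ha => ?_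
    rw [hχ]
    simp only
    rw [sum_boole]
    congr 2
    ext x
    rw [mem_filter]
    exact ⟨fun hx => hx.2, fun hx => ⟨hC a ha hx, hx⟩⟩
  have h2 : ∑ x ∈ S, ∑ a ∈ A, ∑ b ∈ A.erase a, χ a x * χ b x =
      ∑ a ∈ A, ∑ b ∈ A.erase a, ((C a ∩ C b).card : ℝ) := by
    rw [sum_comm]
    refine sum_congr rfl fun a ha => ?_
    rw [sum_comm]
    refine sum_congr rfl fun b _ => ?_
    have h3 : ∀ x ∈ S, χ a x * χ b x = if x ∈ C a ∩ C b then 1 else 0 := by
      intro x _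
      rw [hχ]
      simp only [mem_inter]
      by_cases h : x ∈ C a
      · by_cases h' : x ∈ C b
        · simp [h, h']
        · simp [h, h']
      · simp [h]
    rw [sum_congr rfl h3, sum_boole]
    congr 2
    ext x
    rw [mem_filter]
    exact ⟨fun hx => hx.2, fun hx => ⟨hC a ha (mem_inter.1 hx).1, hx⟩⟩
  have h3 : ∀ x ∈ S, 2 * ∑ a ∈ A, χ a x ≤ 2 + ∑ a ∈ A, ∑ b ∈ A.erase a, χ a x * χ b x := by
    intro x _
    have h4 : ∑ a ∈ A, χ a x = ((A.filter fun a => x ∈ C a).card : ℝ) := by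
      rw [hχ]
      simp only
      rw [sum_boole]
    have h5 : ∑ a ∈ A, ∑ b ∈ A.erase a, χ a x * χ b x =
        (∑ a ∈ A, χ a x) * (∑ a ∈ A, χ a x) - ∑ a ∈ A, χ a x := by
      rw [sum_mul_sum, ← sum_sub_distrib]
      refine sum_congr rfl fun a ha => ?_
      rw [← add_sum_erase A _ ha]
      have h6 : χ a x * χ a x = χ a x := by
        rw [hχ]
        simp only
        by_cases h : x ∈ C a
        · simp [h]
        · simp [h]
      rw [h6]
      ring
    rw [h5, h4]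
    exact CMB_nat _
  have h6 : 2 * ∑ a ∈ A, ((C a).card : ℝ) ≤
      2 * S.card + ∑ a ∈ A, ∑ b ∈ A.erase a, ((C a ∩ C b).card : ℝ) := by
    rw [← h1, ← h2, mul_sum]
    refine (sum_le_sum h3).trans ?_
    rw [sum_add_distrib, sum_const, nsmul_eq_mul]
    linarith
  have h7 : (A.card : ℝ) * t ≤ ∑ a ∈ A, ((C a).card : ℝ) := by
    rw [← nsmul_eq_mul]
    exact card_nsmul_le_sum _ _ _ ht
  have h8 : ∑ a ∈ A, ∑ b ∈ A.erase a, ((C a ∩ C b).card : ℝ) ≤ (A.card : ℝ) * w := by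
    rw [← nsmul_eq_mul]
    exact sum_le_card_nsmul _ _ _ hI
  linarith

/-- BLOCK CMB. -/
theorem p_CMB : Stmt_CMB := by
  classical
  intro n k M t₀ Q v e he hv hvt S hS
  set A : Finset (Fin M) := univ.filter fun a =>
    ∃ z : Cube k, t₀ < (S.filter fun y : Cube n => y ∘ e a = z).card with hA
  have hz : ∀ a : Fin M, ∃ z : Cube k, a ∈ A →
      t₀ < (S.filter fun y : Cube n => y ∘ e a = z).card := by
    intro a
    by_cases ha : a ∈ A
    · obtain ⟨z, h1⟩ := (mem_filter.mp ha).2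
      exact ⟨z, fun _ => h1⟩
    · exact ⟨fun _ => false, fun h1 => absurd h1 ha⟩
  choose z hz using hz
  have hcell : ∀ a b : Fin M,
      (((S.filter fun y : Cube n => y ∘ e a = z a) ∩
        (S.filter fun y : Cube n => y ∘ e b = z b)).card : ℝ) ≤
      (2 : ℝ) ^ n / 2 ^ k * ((2 : ℝ) ^ (rg (e a) ∩ rg (e b)).card / 2 ^ k) := by
    intro a b
    have h1 := card_cells (he a) (he b) le_rfl (z a) (z b)
    have h2 : ((S.filter fun y : Cube n => y ∘ e a = z a) ∩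
        (S.filter fun y : Cube n => y ∘ e b = z b)).card * 2 ^ (2 * k) ≤
        2 ^ n * 2 ^ (rg (e a) ∩ rg (e b)).card := by
      refine le_trans (Nat.mul_le_mul_right _ (card_le_card ?_)) h1
      intro y hy
      obtain ⟨h1, h2⟩ := mem_inter.mp hy
      exact mem_filter.mpr ⟨mem_univ _, (mem_filter.mp h1).2, (mem_filter.mp h2).2⟩
    have h3 : (((S.filter fun y : Cube n => y ∘ e a = z a) ∩
        (S.filter fun y : Cube n => y ∘ e b = z b)).card : ℝ) * 2 ^ (2 * k) ≤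
        2 ^ n * 2 ^ (rg (e a) ∩ rg (e b)).card := by exact_mod_cast h2
    have h4 : (2 : ℝ) ^ k * 2 ^ k = 2 ^ (2 * k) := by rw [← pow_add, two_mul]
    rw [div_mul_div_comm, h4, le_div_iff₀ (by positivity)]
    exact h3
  have hI : ∀ a ∈ A, ∑ b ∈ A.erase a,
      (((S.filter fun y : Cube n => y ∘ e a = z a) ∩
        (S.filter fun y : Cube n => y ∘ e b = z b)).card : ℝ) ≤ (t₀ : ℝ) / 2 := by
    intro a _
    calc ∑ b ∈ A.erase a, (((S.filter fun y : Cube n => y ∘ e a = z a) ∩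
          (S.filter fun y : Cube n => y ∘ e b = z b)).card : ℝ)
        ≤ ∑ b ∈ A.erase a,
          (2 : ℝ) ^ n / 2 ^ k * ((2 : ℝ) ^ (rg (e a) ∩ rg (e b)).card / 2 ^ k) :=
          sum_le_sum fun b _ => hcell a b
      _ ≤ ∑ b ∈ univ.erase a,
          (2 : ℝ) ^ n / 2 ^ k * ((2 : ℝ) ^ (rg (e a) ∩ rg (e b)).card / 2 ^ k) :=
          sum_le_sum_of_subset_of_nonneg (erase_subset_erase _ (subset_univ _))
            fun _ _ _ => by positivity
      _ = (2 : ℝ) ^ n / 2 ^ k *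
          ∑ b ∈ univ.erase a, (2 : ℝ) ^ (rg (e a) ∩ rg (e b)).card / 2 ^ k := by
          rw [mul_sum]
      _ ≤ (2 : ℝ) ^ n / 2 ^ k * v := mul_le_mul_of_nonneg_left (hv a) (by positivity)
      _ ≤ (t₀ : ℝ) / 2 := hvt
  have key := CMB_abs A S (fun a => S.filter fun y : Cube n => y ∘ e a = z a) (t₀ : ℝ)
    ((t₀ : ℝ) / 2) (fun a _ => filter_subset _ _)
    (fun a ha => by exact_mod_cast (hz a ha).le) hI
  have h1 : ∑ a, ind (∃ z : Cube k, t₀ < (S.filter fun y : Cube n => y ∘ e a = z).card) =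
      (A.card : ℝ) := by
    rw [hA, card_filter]
    push_cast
    refine sum_congr rfl fun a _ => ?_
    by_cases ha : ∃ z : Cube k, t₀ < (S.filter fun y : Cube n => y ∘ e a = z).card
    · rw [ind_of ha, if_pos ha]
    · rw [ind_of_not ha, if_neg ha]
  rw [h1]
  have h2 : (S.card : ℝ) ≤ Q := by exact_mod_cast hS
  have h3 : (0 : ℝ) ≤ S.card := Nat.cast_nonneg _
  nlinarith

end Pool.Agent.Work.MP_8f25a0_lc.Ex
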