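import Pool.Agent.Work.MP_8f25a0_ex.Interface

/-!
# Block LOW: the lower bound for `c ≥ 1`
-/

set_option autoImplicit false

namespace Pool.Agent.Work.MP_8f25a0_lc.Ex

open Finset Pool.Agent.Work.MP_8f25a0_lc.Decoy

theorem LOW_pow {k Q : ℕ} {c : ℝ} (hc : 1024 ≤ c) (hk : 256 ≤ k)
    (hQ : Q = min ⌊c / 4⌋₊ k) :
    (2 : ℝ) ^ (2 * (k / Q) + 2) ≤ 16 * 2 ^ (16 * (k : ℝ) / c) := by
  have hc0 : (0 : ℝ) < c := by linarith
  have hk0 : (0 : ℝ) ≤ k := Nat.cast_nonneg _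
  have h1 : (1 : ℝ) ≤ 2 ^ (16 * (k : ℝ) / c) :=
    Real.one_le_rpow (by norm_num) (by positivity)
  rcases le_total ⌊c / 4⌋₊ k with h | h
  · rw [min_eq_left h] at hQ
    have hQc : c / 8 ≤ (Q : ℝ) := by
      rw [hQ]
      have := Nat.lt_floor_add_one (c / 4)
      linarith
    have hQ0 : (0 : ℝ) < Q := by linarith
    have h2 : ((k / Q : ℕ) : ℝ) ≤ 8 * k / c := by
      refine Nat.cast_div_le.trans ?_
      rw [div_le_div_iff₀ hQ0 hc0]
      nlinarith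
    calc (2 : ℝ) ^ (2 * (k / Q) + 2) = 2 ^ (((2 * (k / Q) + 2 : ℕ) : ℝ)) :=
          (Real.rpow_natCast _ _).symm
      _ ≤ 2 ^ (16 * (k : ℝ) / c + 2) := by
          apply Real.rpow_le_rpow_of_exponent_le (by norm_num)
          push_cast
          have : 16 * (k : ℝ) / c = 2 * (8 * k / c) := by ring
          rw [this]
          linarith
      _ = 4 * 2 ^ (16 * (k : ℝ) / c) := by
          rw [Real.rpow_add (by norm_num)]
          norm_num
          ring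
      _ ≤ 16 * 2 ^ (16 * (k : ℝ) / c) := by linarith
  · rw [min_eq_right h] at hQ
    rw [hQ, Nat.div_self (by omega)]
    norm_num
    linarith

/-- **Block LOW.** -/
theorem p_LOW (hCOR : Stmt_COR) : Stmt_LOW := by
  obtain ⟨k₁, hk₁⟩ := star (10 ^ 14) 8 (by norm_num)
  set k₀ : ℕ := max k₁ 256 with hk₀
  set D : ℝ := 10 ^ 15 * 7 ^ 11 * 16 with hD
  set C : ℝ := 4000 * 2 ^ k₀ + D with hC
  have h2k₀ : (1 : ℝ) ≤ 2 ^ k₀ := one_le_pow₀ (by norm_num)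
  have hD1 : (4000 : ℝ) ≤ D := by rw [hD]; norm_num
  have hCD : D ≤ C := by rw [hC]; linarith
  have hC1 : 4000 * 2 ^ k₀ ≤ C := by rw [hC]; linarith
  refine ⟨C, by linarith, ?_⟩
  intro c n k ε hc hk hn hlog hε0 hε4 hεc
  have hq : (0 : ℝ) ≤ queryComplexity n k ε := Nat.cast_nonneg _
  have hk1 : (1 : ℝ) ≤ k := by exact_mod_cast hk
  have hk0 : (0 : ℝ) ≤ k := by linarith
  have hc0 : (0 : ℝ) < c := by linarith
  have hC0 : (0 : ℝ) < C := by linarith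
  have hk11 : (1 : ℝ) ≤ (k : ℝ) ^ 11 := one_le_pow₀ hk1
  have hexp1 : (1 : ℝ) ≤ 2 ^ (C * k / c) :=
    Real.one_le_rpow (by norm_num) (by positivity)
  have hkn : k < n := by
    have h1 : (k : ℝ) < n := by nlinarith
    exact_mod_cast h1
  have hbase : 2 ^ k * min (2 ^ n / 2 ^ k) (1 / ε ^ 2) ≤
      4000 * 2 ^ k * (queryComplexity n k ε : ℝ) := by
    obtain ⟨A, hA⟩ := exists_approximates n k hε0.le
    have h1 := lower_bound hkn hε0 hε4 hA
    have h3 : min ((2 : ℝ) ^ n / 2 ^ k) (1 / ε ^ 2) ≤ min (2 ^ n) (1 / ε ^ 2) := by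
      apply min_le_min_right
      exact div_le_self (by positivity) (one_le_pow₀ (by norm_num))
    have h4 : min ((2 : ℝ) ^ n / 2 ^ k) (1 / ε ^ 2) ≤ 4000 * (queryComplexity n k ε : ℝ) := by
      linarith
    calc 2 ^ k * min ((2 : ℝ) ^ n / 2 ^ k) (1 / ε ^ 2)
        ≤ 2 ^ k * (4000 * (queryComplexity n k ε : ℝ)) :=
          mul_le_mul_of_nonneg_left h4 (by positivity)
      _ = 4000 * 2 ^ k * (queryComplexity n k ε : ℝ) := by ring
  rcases lt_or_ge k k₀ with hkk | hkk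
  · refine hbase.trans (mul_le_mul_of_nonneg_right ?_ hq)
    have h2 : (2 : ℝ) ^ k ≤ 2 ^ k₀ := pow_le_pow_right₀ (by norm_num) hkk.le
    calc 4000 * (2 : ℝ) ^ k ≤ 4000 * 2 ^ k₀ := by linarith
      _ ≤ C := hC1
      _ ≤ C * (k : ℝ) ^ 11 := le_mul_of_one_le_right hC0.le hk11
      _ ≤ C * (k : ℝ) ^ 11 * 2 ^ (C * k / c) :=
          le_mul_of_one_le_right (by positivity) hexp1
  rcases lt_or_ge c 1024 with hcc | hcc
  · refine hbase.trans (mul_le_mul_of_nonneg_right ?_ hq)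
    have h2 : (2 : ℝ) ^ k ≤ 2 ^ (C * k / c) := by
      rw [← Real.rpow_natCast]
      apply Real.rpow_le_rpow_of_exponent_le (by norm_num)
      rw [le_div_iff₀ hc0]
      have : c ≤ C := by linarith
      nlinarith
    have h3 : (4000 : ℝ) ≤ C * (k : ℝ) ^ 11 := by
      calc (4000 : ℝ) ≤ C := by linarith
        _ ≤ C * (k : ℝ) ^ 11 := le_mul_of_one_le_right hC0.le hk11
    exact mul_le_mul h3 h2 (by positivity) (by positivity)
  have hk256 : 256 ≤ k := (le_max_right k₁ 256).trans hkk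
  have hst := hk₁ k ((le_max_left k₁ 256).trans hkk)
  obtain ⟨Q, hQ⟩ : ∃ Q' : ℕ, Q' = min (⌊c / 4⌋₊) k := ⟨_, rfl⟩
  have hQ256 : 256 ≤ Q := by
    rw [hQ]
    apply le_min _ hk256
    apply Nat.le_floor
    push_cast
    linarith
  have hQk : Q ≤ k := by rw [hQ]; exact min_le_right _ _
  have hQc : (Q : ℝ) ≤ c / 4 := by
    have h1 : Q ≤ ⌊c / 4⌋₊ := by rw [hQ]; exact min_le_left _ _
    exact (by exact_mod_cast h1 : (Q : ℝ) ≤ (⌊c / 4⌋₊ : ℝ)).trans (Nat.floor_le (by positivity))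
  have h4n : 4 * (k * Q) ≤ n := by
    have h1 : (4 * (k * Q) : ℝ) ≤ n := by nlinarith
    exact_mod_cast h1
  have hε1 : ε ≤ 1 / 2 ^ (k * Q) := by
    refine hεc.trans ?_
    rw [Real.rpow_neg (by norm_num), ← one_div]
    apply one_div_le_one_div_of_le (by positivity)
    rw [← Real.rpow_natCast]
    apply Real.rpow_le_rpow_of_exponent_le (by norm_num)
    push_cast
    nlinarith
  have hcore := hCOR k Q n ε hQ256 hQk hst h4n hlog hε0 hε1
  refine hcore.trans (mul_le_mul_of_nonneg_right ?_ hq)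
  have hp := LOW_pow hcc hk256 hQ
  have hk6 : ((k : ℝ) + 6) ^ 11 ≤ 7 ^ 11 * (k : ℝ) ^ 11 := by
    rw [← mul_pow]
    apply pow_le_pow_left₀ (by positivity)
    linarith
  have hexp2 : (2 : ℝ) ^ (16 * (k : ℝ) / c) ≤ 2 ^ (C * k / c) := by
    apply Real.rpow_le_rpow_of_exponent_le (by norm_num)
    rw [div_le_div_iff_of_pos_right hc0]
    have : (16 : ℝ) ≤ C := by linarith
    nlinarith
  calc 10 ^ 15 * ((k : ℝ) + 6) ^ 11 * 2 ^ (2 * (k / Q) + 2)
      ≤ 10 ^ 15 * (7 ^ 11 * (k : ℝ) ^ 11) * (16 * 2 ^ (16 * (k : ℝ) / c)) := by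
        gcongr
    _ ≤ 10 ^ 15 * (7 ^ 11 * (k : ℝ) ^ 11) * (16 * 2 ^ (C * k / c)) := by
        gcongr
    _ = D * (k : ℝ) ^ 11 * 2 ^ (C * k / c) := by rw [hD]; ring
    _ ≤ C * (k : ℝ) ^ 11 * 2 ^ (C * k / c) := by gcongr

end Pool.Agent.Work.MP_8f25a0_lc.Ex
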