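import Pool.Agent.Work.MP_8f25a0_lc.Decoy.Theta

/-!
# Distance to `k`-juntas: explicit exponent, polynomial in `k` for very small `ε` (interface)

The proof of `MP_8f25a0_lc/Decoy` (files there are all proved, use them freely) with a RANDOM block
code in place of the greedy code.  The file of block `X` is `Pool/Agent/Work/MP_8f25a0_ex/B_X.lean`:
import this file, `namespace Pool.Agent.Work.MP_8f25a0_lc.Ex`,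
`open Finset Pool.Agent.Work.MP_8f25a0_lc.Decoy`, `theorem p_X (hA : Stmt_A) .. : Stmt_X` with the blocks of the column
`uses` as hypotheses in that order; auxiliary lemmas with the prefix `X_`.
`m` below is `min (2 ^ n) ((2 ^ k + L) / ε ^ 2)`, `L = log (min n (1/ε))`.
-/

set_option autoImplicit false

namespace Pool.Agent.Work.MP_8f25a0_lc.Ex

open Finset Pool.Agent.Work.MP_8f25a0_lc.Decoy

/-- The total overlap of the decoys with `J`, except for the decoy `a` with the largest overlap. -/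
def Ov {n k M : ℕ} (e : Fin M → Fin k → Fin n) (v : ℝ) : Prop :=
  ∀ (J : Finset (Fin n)) (a : Fin M), J.card ≤ k →
    (∀ b, (J ∩ rg (e b)).card ≤ (J ∩ rg (e a)).card) →
    ∑ b ∈ univ.erase a, (2 : ℝ) ^ (J ∩ rg (e b)).card / 2 ^ k ≤ v

/-- The block code: the word `φ a` lists the coordinates `(i, φ a i)`. -/
def cod {M k q : ℕ} (φ : Fin M → Fin k → Fin q) (a : Fin M) (i : Fin k) : Fin (k * q) :=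
  finProdFinEquiv (i, φ a i)

/-- The number of coordinates of the word `c` in `J`. -/
def hit {k q : ℕ} (J : Finset (Fin (k * q))) (c : Fin k → Fin q) : ℕ :=
  (univ.filter fun i => (finProdFinEquiv (i, c i) : Fin (k * q)) ∈ J).card

/-- `2 ^ hit`, if it is at most `B`. -/
noncomputable def YY {k q : ℕ} (J : Finset (Fin (k * q))) (B : ℝ) (c : Fin k → Fin q) : ℝ :=
  if (2 : ℝ) ^ hit J c ≤ B then 2 ^ hit J c else 0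

/-- BLOCK CMB (uses nothing): few decoys have a full cell.
PROOF.  `A` = the decoys with such a `z = z a`, `C a = S.filter (y ∘ e a = z a)` (see `Decoy/B11.lean`).  For `x ∈ S` let `d x` be the number
of `a ∈ A` with `x ∈ C a`: `∑ x ∈ S, d x = ∑ a ∈ A, (C a).card ≥ |A| t₀` and `2 d ≤ 2 + (d d - d)` (`b10_ineq`), so
`2 |A| t₀ ≤ 2 |S| + ∑ over a ≠ b in A of (C a ∩ C b).card` (as in `comb_abs` of `Decoy/B10.lean`).  `card_cells` (`Decoy/B09.lean`) with `s` the card of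
`rg (e a) ∩ rg (e b)`: `(C a ∩ C b).card ≤ 2 ^ n * 2 ^ s / 2 ^ (2 k)`; for fixed `a` the sum over `b ≠ a` is at most `2 ^ n / 2 ^ k * v ≤ t₀ / 2`.
So `2 |A| t₀ ≤ 2 |S| + |A| t₀ / 2`, hence `|A| t₀ ≤ (4/3) |S| ≤ 2 Q`. -/
def Stmt_CMB : Prop := ∀ (n k M t₀ Q : ℕ) (v : ℝ) (e : Fin M → Fin k → Fin n),
  (∀ a, Function.Injective (e a)) →
  (∀ a, ∑ b ∈ univ.erase a, (2 : ℝ) ^ (rg (e a) ∩ rg (e b)).card / 2 ^ k ≤ v) →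
  (2 : ℝ) ^ n / 2 ^ k * v ≤ t₀ / 2 → ∀ S : Finset (Cube n), S.card ≤ Q →
  (∑ a, ind (∃ z : Cube k, t₀ < (S.filter fun y : Cube n => y ∘ e a = z).card)) * t₀ ≤ 2 * Q

/-- BLOCK RC0 (uses nothing): the block code.
PROOF.  `finProdFinEquiv` is injective; see `code_sets` in `Decoy/B14.lean`.  (2) `i ↦ cod φ a i` is injective and maps the filter onto
`J ∩ rg (cod φ a)`.  (3) `cod φ a i = cod φ b j` iff `i = j` and `φ a i = φ b i`. -/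
def Stmt_RC0 : Prop := ∀ (M k q : ℕ) (φ : Fin M → Fin k → Fin q),
  (∀ a, Function.Injective (cod φ a)) ∧
  (∀ (J : Finset (Fin (k * q))) (a : Fin M), (J ∩ rg (cod φ a)).card = hit J (φ a)) ∧
  ∀ a b, (rg (cod φ a) ∩ rg (cod φ b)).card = (univ.filter fun i => φ a i = φ b i).card

/-- BLOCK RC1 (uses nothing): the mean of `2 ^ hit`.
PROOF.  `2 ^ hit J c = ∏ i, (if (i, c i) ∈ J then 2 else 1)` (`Finset.prod_ite`, `prod_const`), so the sum over `c` is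
`∏ i, ∑ j, (if (i, j) ∈ J then 2 else 1) = ∏ i, (q + j_i)` (`Finset.prod_univ_sum`, `Fintype.piFinset_univ`), `j_i` the number of `j` with
`finProdFinEquiv (i, j) ∈ J`, and `q + j_i ≤ q * exp (j_i / q)` (`Real.add_one_le_exp`), `∑ j_i = J.card ≤ k`. -/
def Stmt_RC1 : Prop := ∀ (k q : ℕ) (J : Finset (Fin (k * q))), 0 < q → J.card ≤ k →
  ∑ c : Fin k → Fin q, (2 : ℝ) ^ hit J c ≤ (q : ℝ) ^ k * Real.exp (k / q)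

/-- BLOCK RC2 (uses RC1): the tail for one `J`.
PROOF.  For `0 ≤ y ≤ 1`: `exp y ≤ 1 + 2 y` (convexity, or `Real.exp_bound'`; `e - 1 ≤ 2`).  `0 ≤ YY J B c / B ≤ 1`, `YY ≤ 2 ^ hit`, so
`∑ c, exp (YY J B c / B) ≤ q ^ k + 2 * (q ^ k * E) / B = q ^ k (1 + 2 E / B) ≤ q ^ k * exp (2 E / B)` (RC1).  Hence
`∑ φ, exp ((∑ b, YY J B (φ b)) / B) = (∑ c, exp (YY J B c / B)) ^ M ≤ (q ^ k) ^ M * exp (2 M E / B)` (`Finset.prod_univ_sum`).  Each `φ` of the filter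
contributes at least `exp ((2 M E + B u) / B) = exp (2 M E / B) * exp u`. -/
def Stmt_RC2 : Prop := ∀ (k q M : ℕ) (J : Finset (Fin (k * q))) (B E u : ℝ), 0 < q → J.card ≤ k →
  0 < B → Real.exp (k / q) ≤ E →
  ((univ.filter fun φ : Fin M → Fin k → Fin q =>
    2 * M * E + B * u < ∑ b, YY J B (φ b)).card : ℝ) ≤ ((q : ℝ) ^ k) ^ M * Real.exp (-u)

/-- BLOCK RC3 (uses nothing): two words agree in few places.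
PROOF.  If `k < s + 1` the filter is empty.  Otherwise: for each choice of the words `φ c`, `c ≠ a`, there are at most `2 ^ k * q ^ (k - (s + 1))` words `w = φ a`
(`b13_bad` of `Decoy/B13.lean` with `c = φ b`); so the card is at most `(q ^ k) ^ (M - 1) * (2 ^ k * q ^ (k - (s + 1)))` (fibres of
`φ ↦ fun c : {c // c ≠ a} => φ c`, `Finset.card_le_mul_card_image` or `Equiv.funSplitAt`). -/
def Stmt_RC3 : Prop := ∀ (k q M s : ℕ) (a b : Fin M), 0 < q → a ≠ b →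
  (univ.filter fun φ : Fin M → Fin k → Fin q =>
    s + 1 ≤ (univ.filter fun i => φ a i = φ b i).card).card * q ^ (s + 1) ≤ 2 ^ k * (q ^ k) ^ M

/-- BLOCK RCD (uses RC0, RC2, RC3): a good code exists.
PROOF.  `B = 2 ^ ((k + s) / 2)`, `E = 2 ^ r`, `u = k q + 2`.  Bad words `φ`: (i) for some `J` with `J.card ≤ k` the sum of RC2 is larger than
`2 M E + B u`: at most `2 ^ (k q)` sets `J`, so at most `(q ^ k) ^ M * 2 ^ (k q) * exp (-(k q + 2)) ≤ (q ^ k) ^ M / 4`; (ii) for some `a ≠ b` at least `s + 1`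
agreements: at most `M ^ 2 * 2 ^ k * (q ^ k) ^ M / q ^ (s + 1) ≤ (q ^ k) ^ M / 4`.  So some `φ` is not bad (there are `(q ^ k) ^ M`); `e = cod φ`.
For `J`, `a` as in `Ov` and `b ≠ a`: `(J ∩ rg (e b)).card ≤ (k + s) / 2` (see `h3`, `h5` in the proof of `john`, `Decoy/B12.lean`; the two
sets intersect in at most `s` points by RC0 (3)), so `2 ^ (J ∩ rg (e b)).card = YY J B (φ b)` (RC0 (2)), and the sum over `b ≠ a` is at most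
`∑ b, YY J B (φ b) ≤ 2 M E + B u` (`YY ≥ 0`). -/
def Stmt_RCD : Prop := ∀ (k q M s r : ℕ), 1 ≤ k → 1 ≤ q → 1 ≤ M →
  4 * M ^ 2 * 2 ^ k ≤ q ^ (s + 1) → Real.exp (k / q) ≤ 2 ^ r →
  ∃ e : Fin M → Fin k → Fin (k * q), (∀ a, Function.Injective (e a)) ∧
    Ov e (2 * M * 2 ^ r / 2 ^ k + (k * q + 2) * 2 ^ ((k + s) / 2) / 2 ^ k)

/-- BLOCK ENG (uses CMB): the engine (typed by helper82). -/
def Stmt_ENG : Prop := ∀ (N d k M t₀ q D : ℕ) (V : Type) [Fintype V] (β ε v : ℝ)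
  (P : Pair V D β) (e : Fin M → Fin k → Fin N), 0 < β → (∀ a, Function.Injective (e a)) →
  Ov e v → 0 < v → 2 ≤ M → 0 < N + d →
  512 * v * (N * Real.log 4 + Real.log (200 * M)) ≤ β ^ 2 →
  M * Real.exp (-(2 ^ k * β ^ 2 / 512)) ≤ 1 / 100 → 0 < ε → M * (8 * ε / β) ≤ 1 / 2 →
  (2 : ℝ) ^ k * (8 / 3 * (1 / 4) ^ D) ≤ 1 / 100 →
  ((N + d : ℕ) : ℝ) ^ k * 2 ^ (2 ^ k) *
    Real.exp (-(2 ^ (N + d) * (ε / 4) ^ 2 / 2)) ≤ 1 / 100 →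
  1 ≤ t₀ → (t₀ : ℝ) * (4 / 3 * (8 * ε / β) ^ 2) ≤ 1 / 16 →
  (2 : ℝ) ^ (N + d) / 2 ^ k * v ≤ t₀ / 2 → ∀ A : PMF (Tree (N + d)),
  Approximates (N + d) k ε q A → (t₀ : ℝ) * M / 10 ≤ q

/-- BLOCK GST (uses ENG): the engine with the pair of `exists_pair`.
PROOF.  Copy `gstep` of `Decoy/Gstep.lean`.  `gs_log` gives `N log 4 + log (200 M) ≤ 10 Q`, so `512 v (10 Q) ≤ 5120 Q / (10 ^ 7 Q m ^ 4) ≤ 1 / (4 m ^ 4)`,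
`m = k + 3` (`β = 1 / (2 m ^ 2)`).  `gs_c`, `num_N` unchanged.  The last hypothesis of ENG: `2 ^ n / 2 ^ k ≤ 64 (k + 6) / ε ^ 2` and `k + 6 ≤ 7 Q`, so
`2 ^ n / 2 ^ k * v ≤ 448 / (10 ^ 7 m ^ 4 ε ^ 2) ≤ 3 / (65536 m ^ 4 ε ^ 2) ≤ t₀ / 2`. -/
def Stmt_GST : Prop := ∀ (k N d M q : ℕ) (Q v ε : ℝ) (e : Fin M → Fin k → Fin N), 1 ≤ k →
  2 ≤ M → (∀ a, Function.Injective (e a)) → Ov e v → 0 < v → (N : ℝ) ≤ Q → (k : ℝ) ≤ Q →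
  (M : ℝ) ≤ 2 ^ k → v ≤ 1 / (10 ^ 7 * Q * ((k : ℝ) + 3) ^ 4) →
  2048 * ((k : ℝ) + 3) ^ 4 * ((k : ℝ) + 5) ≤ 2 ^ k → 0 < N + d →
  Real.log ((N + d : ℕ) : ℝ) ≤ 2 ^ k → 0 < ε →
  (M : ℝ) * (16 * ((k : ℝ) + 3) ^ 2 * ε) ≤ 1 / 2 → 16384 * ((k : ℝ) + 3) ^ 4 * ε ^ 2 ≤ 3 →
  32 * ((k : ℝ) + 6) ≤ 2 ^ (N + d) / 2 ^ k * ε ^ 2 →
  2 ^ (N + d) / 2 ^ k * ε ^ 2 ≤ 64 * ((k : ℝ) + 6) → ∀ A : PMF (Tree (N + d)),
  Approximates (N + d) k ε q A → 3 / (32768 * ((k : ℝ) + 3) ^ 4 * ε ^ 2) * M / 10 ≤ q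

/-- BLOCK STP (uses RCD, GST): the choice of the parameters.
PROOF.  `k ≥ 256`.  `r = 2 * (k / Q) + 2`, `s = k / 2`, `N = k Q`, `n = N + d`, `m = k + 3`, `W = 2 ^ k / 2 ^ r / (4 * 10 ^ 7 * (k Q) * m ^ 4)`, `M = ⌊W⌋₊`.
(a) `W ≥ 2`: `k - r ≥ k / 8`, `2 ^ (k / 8) ≥ 10 ^ 14 (k + 6) ^ 10 ≥ 8 * 10 ^ 7 * k ^ 2 * m ^ 4`; so `2 ≤ M`, `W / 2 ≤ M ≤ W ≤ 2 ^ k` (`half_floor`).
(b) `4 M ^ 2 2 ^ k ≤ 2 ^ (3 k + 2) ≤ 2 ^ (8 (s + 1)) ≤ Q ^ (s + 1)`.  (c) `exp (k / Q) ≤ exp ((k / Q : ℕ) + 1) ≤ 4 ^ ((k / Q) + 1) = 2 ^ r`.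
RCD gives `e`, `v = 2 M 2 ^ r / 2 ^ k + (k Q + 2) 2 ^ ((k + s) / 2) / 2 ^ k`.  (d) `v ≤ 1 / (10 ^ 7 (k Q) m ^ 4)`: the first term is at most
`2 / (4 * 10 ^ 7 (k Q) m ^ 4)`; `k - (k + s) / 2 ≥ k / 8`, so the second one is at most `(k ^ 2 + 2) / 2 ^ (k / 8) ≤ (k ^ 2 + 2) / (10 ^ 14 (k + 6) ^ 10) ≤ 1 / (2 * 10 ^ 7 (k Q) m ^ 4)`.
(e) GST with the real `Q := k Q`; the remaining hypotheses as in `sm_step` / `step` (`2048 m ^ 4 (k + 5) ≤ 2 ^ (k / 8) ≤ 2 ^ k`; `M 16 m ^ 2 ε ≤ 1 / 2` and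
`16384 m ^ 4 ε ^ 2 ≤ 3` from `M ≤ 2 ^ k`, `ε ≤ 1 / 2 ^ (256 k)`, `m ≤ 2 ^ (k + 2)`).
(f) `3 / (32768 m ^ 4 ε ^ 2) * (W / 2) / 10 ≥ 2 ^ k / 2 ^ r / (10 ^ 13 (k Q) m ^ 8 ε ^ 2)` (`327680 * 8 * 10 ^ 7 / 3 ≤ 10 ^ 13`). -/
def Stmt_STP : Prop := ∀ (k Q n q : ℕ) (ε : ℝ), 256 ≤ Q → Q ≤ k →
  10 ^ 14 * ((k : ℝ) + 6) ^ 10 ≤ 2 ^ (k / 8) → k * Q ≤ n → Real.log n ≤ 2 ^ k → 0 < ε →
  ε ≤ 1 / 2 ^ (k * Q) → 32 * ((k : ℝ) + 6) ≤ 2 ^ n / 2 ^ k * ε ^ 2 →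
  2 ^ n / 2 ^ k * ε ^ 2 ≤ 64 * ((k : ℝ) + 6) → ∀ A : PMF (Tree n), Approximates n k ε q A →
  2 ^ k / 2 ^ (2 * (k / Q) + 2) / (10 ^ 13 * (k * Q) * ((k : ℝ) + 3) ^ 8 * ε ^ 2) ≤ q

/-- BLOCK COR (uses STP): all large `n`.
PROOF.  Copy `core` of `Decoy/Main.lean` (`N = k Q`, `Z = 10 ^ 13 (k Q) (k + 3) ^ 8 * 2 ^ (2 (k / Q) + 2)`): case `32 (k + 6) ≤ 2 ^ n / 2 ^ k * ε ^ 2`: least such `n₁ ≤ n`, it is
larger than `N`, STP for `n₁`, `qc_mono`; other case: `ε₂ = √(32 (k + 6) 2 ^ k / 2 ^ n) ≥ ε`, `ε₂ ≤ 1 / 2 ^ N` (`4 N ≤ n`), STP for `ε₂`, `qc_eps`.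
Numbers: `32 (k + 6) Z ≤ 10 ^ 15 (k + 6) ^ 11 * 2 ^ (2 (k / Q) + 2)` as `k Q ≤ k ^ 2`. -/
def Stmt_COR : Prop := ∀ (k Q n : ℕ) (ε : ℝ), 256 ≤ Q → Q ≤ k →
  10 ^ 14 * ((k : ℝ) + 6) ^ 10 ≤ 2 ^ (k / 8) → 4 * (k * Q) ≤ n → Real.log n ≤ 2 ^ k → 0 < ε →
  ε ≤ 1 / 2 ^ (k * Q) →
  2 ^ k * min (2 ^ n / 2 ^ k) (1 / ε ^ 2) ≤
    10 ^ 15 * ((k : ℝ) + 6) ^ 11 * 2 ^ (2 * (k / Q) + 2) * (queryComplexity n k ε : ℝ)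

/-- BLOCK LOW (uses COR): the lower bound for `c ≥ 1`.
PROOF.  `k₀` from `star (10 ^ 14) 8` (`Decoy/B31.lean`), may be taken `≥ 256`.  `lower_bound` (with `exists_approximates`) gives `min (2 ^ n) (1 / ε ^ 2) ≤ 4000 q`, hence
`2 ^ k * min (2 ^ n / 2 ^ k) (1 / ε ^ 2) ≤ 4000 * 2 ^ k * q` always; enough if `k < k₀` (`C ≥ 4000 * 2 ^ k₀`) or `c < 1024` (`2 ^ k ≤ 2 ^ (C k / c)` for `C ≥ 1024`).
Otherwise `Q = min ⌊c / 4⌋₊ k ≥ 256`: `4 k Q ≤ c k ≤ n`, `ε ≤ 2 ^ (-(c k)) ≤ 1 / 2 ^ (k Q)`, COR.  `Q = ⌊c / 4⌋₊ ≥ c / 8`: `k / Q ≤ 8 k / c`, so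
`2 ^ (2 (k / Q) + 2) ≤ 4 * 2 ^ (16 k / c)`; `Q = k`: it is `16`.  `(k + 6) ^ 11 ≤ 7 ^ 11 * k ^ 11`. -/
def Stmt_LOW : Prop := ∃ C : ℝ, 1 ≤ C ∧ ∀ (c : ℝ) (n k : ℕ) (ε : ℝ), 1 ≤ c → 1 ≤ k →
  (1 + c) * k ≤ n → Real.log n ≤ 2 ^ k → 0 < ε → ε < 1 / 4 → ε ≤ 2 ^ (-(c * k)) →
  2 ^ k * min (2 ^ n / 2 ^ k) (1 / ε ^ 2) ≤
    C * (k : ℝ) ^ 11 * 2 ^ (C * k / c) * (queryComplexity n k ε : ℝ)

/-- BLOCK TWO (uses LOW): both bounds for `c ≥ 1`.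
PROOF.  Copy `two_sided'` of `Decoy/Theta.lean`.  The upper bound is as there (`upper_min`).  Lower bound: case `log n ≤ 2 ^ k`: `L ≤ 2 ^ k`,
`m ≤ 2 * 2 ^ k * min (2 ^ n / 2 ^ k) (1 / ε ^ 2)`, LOW.  Case `log n > 2 ^ k`: if `2 ^ k ≤ L`: `explicit_lower`, `1 + log k ≤ k ≤ k ^ 11`, `2 ^ (C k / c) ≥ 1`.
If `L < 2 ^ k` and `k < 3`: `lower_bound`.  If `L < 2 ^ k`, `3 ≤ k`: `L = log (1 / ε)`, `n₀ = ⌊exp (2 ^ k)⌋₊ ≤ n` satisfies `log n₀ ≤ 2 ^ k`,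
`1 / ε ^ 2 ≤ 2 ^ n₀ / 2 ^ k` (as in `exists_n₀'`, with `2 ^ k ≥ 8`) and `(1 + c) k ≤ n₀`, because `c k log 2 ≤ log (1 / ε) < 2 ^ k` gives `c k ≤ 2 * 2 ^ k`, and
`n₀ ≥ 2 ^ k + (2 ^ k) ^ 2 / 2 ≥ k + 2 * 2 ^ k`.  LOW for `n₀` and `qc_mono`. -/
def Stmt_TWO : Prop := ∃ C : ℝ, 1 ≤ C ∧ ∀ (c : ℝ) (n k : ℕ) (ε : ℝ), 1 ≤ c → 1 ≤ k →
  (1 + c) * k ≤ n → 0 < ε → ε < 1 / 4 → ε ≤ 2 ^ (-(c * k)) →
  (Real.log n ≤ 2 ^ k ∨ Real.log (min n (1 / ε)) / ε ^ 2 ≤ 2 ^ n / 2 ^ k) →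
  min (2 ^ n) ((2 ^ k + Real.log (min n (1 / ε))) / ε ^ 2) ≤
    C * (k : ℝ) ^ 11 * 2 ^ (C * k / c) * (queryComplexity n k ε : ℝ) ∧
  (queryComplexity n k ε : ℝ) ≤
    2000 * k * min (2 ^ n) ((2 ^ k + Real.log (min n (1 / ε))) / ε ^ 2)

/-- BLOCK FIN (uses TWO): the theorem.
PROOF.  `θ₀` and the constants `C₀ c` of `two_sided_all` (for `c > 0`; choose them), `C₁` of TWO.  `C = max C₁ (C₀ 1)`.  For `c < 1`: `θ c = θ₀ c`, `K c = C₀ c`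
(`k ^ 11 ≥ 1`).  For `c ≥ 1`: `θ c = max (1 - C / c) (θ₀ 1)`, `K c = C`: if the maximum is `1 - C / c`: TWO (`2 ^ (C₁ k / c) ≤ 2 ^ (C k / c) = 2 ^ ((1 - θ c) k)`); if it is
`θ₀ 1`: `two_sided_all` for `1` (`(1 + 1) k ≤ (1 + c) k ≤ n`, `ε ≤ 2 ^ (-(c k)) ≤ 2 ^ (-(1 * k))`).  The upper bound `2000 k m` is in the proof of `two_sided'`
(`upper_min`), also for `c < 1`. -/
def Stmt_FIN : Prop := ∃ (C : ℝ) (θ K : ℝ → ℝ), 1 ≤ C ∧ (∀ c, 0 < c → 0 < θ c ∧ 0 < K c) ∧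
  (∀ c, 1 ≤ c → K c = C ∧ 1 - C / c ≤ θ c) ∧
  ∀ (c : ℝ) (n k : ℕ) (ε : ℝ), 0 < c → 1 ≤ k → (1 + c) * k ≤ n → 0 < ε → ε < 1 / 4 →
  ε ≤ 2 ^ (-(c * k)) →
  (Real.log n ≤ 2 ^ k ∨ Real.log (min n (1 / ε)) / ε ^ 2 ≤ 2 ^ n / 2 ^ k) →
  min (2 ^ n) ((2 ^ k + Real.log (min n (1 / ε))) / ε ^ 2) /
      (K c * (k : ℝ) ^ 11 * 2 ^ ((1 - θ c) * k)) ≤ queryComplexity n k ε ∧
  (queryComplexity n k ε : ℝ) ≤
    2000 * k * min (2 ^ n) ((2 ^ k + Real.log (min n (1 / ε))) / ε ^ 2)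

end Pool.Agent.Work.MP_8f25a0_lc.Ex
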